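import Pool.Agent.X133.Sq.Cont

set_option autoImplicit false
set_option linter.unusedSectionVars false

open Matrix Finset Filter Topology
open scoped MatrixOrder ComplexOrder

namespace Pool.Agent.X133.Sq

variable {N : Type*} [Fintype N] [DecidableEq N]

/-! ### A normal form of covariance matrices -/

theorem conj_unit_mul {J A W : Matrix N N ℝ} (hJ : IsJ J) (h : Pure J A) (hW : W = Jᵀ * A * J) :
    A * W = 1 ∧ W * A = 1 ∧ Jᵀ * W * J = A ∧ Wᵀ = W ∧ W * J * W = J := by
  have e1 : W = A⁻¹ := by rw [hW, h.inv_eq hJ]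
  refine ⟨?_, ?_, ?_, ?_, ?_⟩
  · rw [e1]; exact Matrix.mul_nonsing_inv A (pd_unit h.1)
  · rw [e1]; exact Matrix.nonsing_inv_mul A (pd_unit h.1)
  · rw [hW, hJ.1]
    have : -J * (-J * A * J) * J = (J * J) * A * (J * J) := by noncomm_ring
    rw [this, hJ.2]
    simp
  · rw [e1]; exact pd_symm h.1.inv
  · rw [hW]
    have : Jᵀ * A * J * J * (Jᵀ * A * J) = Jᵀ * (A * J * (J * Jᵀ) * A) * J := by
      simp only [Matrix.mul_assoc]
    rw [this, hJ.mul_t, Matrix.mul_one, h.2, hJ.t_mul, Matrix.one_mul]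

theorem normal_form {J γ : Matrix N N ℝ} (hJ : IsJ J) (h : Cov J γ) :
    ∃ S R : Matrix N N ℝ, Pure J S ∧ (γ - S * S).PosSemidef ∧ R.PosSemidef ∧ J * R = R * J ∧
      γ = S * (1 + R * R) * S := by
  have hPD := h.posDef hJ
  obtain ⟨P, hP, hPP⟩ := exists_geo hPD (dual_pd hJ hPD)
  have hPpure := geo_self_pure hJ hPD hP hPP
  have hle : (γ - P).PosSemidef := by
    have h1 := geo_le hPD hP hPP
    have h2 := (h.dual_le hJ).smul (show (0 : ℝ) ≤ 1 / 2 by norm_num)
    have h3 := h1.add h2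
    have h4 : (1 / 2 : ℝ) • (γ + Jᵀ * γ⁻¹ * J) - P + (1 / 2 : ℝ) • (γ - Jᵀ * γ⁻¹ * J) =
        γ - P := by
      rw [smul_add, smul_sub]
      have : γ = (1 / 2 : ℝ) • γ + (1 / 2 : ℝ) • γ := by
        rw [← add_smul]; norm_num
      nth_rewrite 5 [this]
      abel
    rwa [h4] at h3
  obtain ⟨S, hS, hSS⟩ := exists_sqrt_pd hP
  have hSpure := sqrt_pure hJ hPpure hS hSS
  set W := Jᵀ * S * J with hW
  obtain ⟨w1, w2, w3, w4, w5⟩ := conj_unit_mul hJ hSpure hW
  set Q := W * γ * W - 1 with hQ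
  have hQpsd : Q.PosSemidef := by
    have h1 := psd_conj hle W
    have h2 : Wᵀ * (γ - P) * W = Q := by
      rw [w4, ← hSS, hQ, Matrix.mul_sub, Matrix.sub_mul]
      congr 1
      have : W * (S * S) * W = (W * S) * (S * W) := by simp only [Matrix.mul_assoc]
      rw [this, w1, w2, Matrix.one_mul]
    rwa [h2] at h1
  obtain ⟨R, hR, hRR⟩ := exists_sqrt hQpsd
  -- `JᵀQJ = Q`
  have hJQ : Jᵀ * Q * J = Q := by
    have h1 : Jᵀ * γ * J = (W * W) * γ * (W * W) := by
      -- (Jᵀ γ⁻¹ J)⁻¹ = Jᵀ γ J, and P γ⁻¹ P = Jᵀ γ⁻¹ J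
      have e1 : (Jᵀ * γ⁻¹ * J) * (Jᵀ * γ * J) = 1 := by
        have : Jᵀ * γ⁻¹ * J * (Jᵀ * γ * J) = Jᵀ * (γ⁻¹ * (J * Jᵀ) * γ) * J := by
          simp only [Matrix.mul_assoc]
        rw [this, hJ.mul_t, Matrix.mul_one, Matrix.nonsing_inv_mul _ (pd_unit hPD),
          Matrix.mul_one, hJ.t_mul]
      have e2 : ((W * W) * γ * (W * W)) * (Jᵀ * γ⁻¹ * J) = 1 := by
        rw [← hPP, ← hSS]
        have : W * W * γ * (W * W) * (S * S * γ⁻¹ * (S * S)) =
            W * W * γ * (W * (W * S) * S) * γ⁻¹ * (S * S) := by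
          simp only [Matrix.mul_assoc]
        rw [this, w2, Matrix.mul_one, w2, Matrix.mul_one]
        have : W * W * γ * γ⁻¹ * (S * S) = W * W * (γ * γ⁻¹) * (S * S) := by
          simp only [Matrix.mul_assoc]
        rw [this, Matrix.mul_nonsing_inv _ (pd_unit hPD), Matrix.mul_one]
        have : W * W * (S * S) = W * (W * S) * S := by simp only [Matrix.mul_assoc]
        rw [this, w2, Matrix.mul_one, w2]
      calc Jᵀ * γ * J = ((W * W) * γ * (W * W)) * (Jᵀ * γ⁻¹ * J) * (Jᵀ * γ * J) := by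
            rw [e2, Matrix.one_mul]
        _ = ((W * W) * γ * (W * W)) * ((Jᵀ * γ⁻¹ * J) * (Jᵀ * γ * J)) := by
            simp only [Matrix.mul_assoc]
        _ = _ := by rw [e1, Matrix.mul_one]
    have h2 : Jᵀ * (W * γ * W) * J = W * γ * W := by
      have e1 : Jᵀ * (W * γ * W) * J = (Jᵀ * W * J) * (Jᵀ * γ * J) * (Jᵀ * W * J) := by
        have : (Jᵀ * W * J) * (Jᵀ * γ * J) * (Jᵀ * W * J) =
            Jᵀ * W * (J * Jᵀ) * γ * (J * Jᵀ) * W * J := by
          simp only [Matrix.mul_assoc]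
        rw [this, hJ.mul_t]
        simp only [Matrix.mul_one, Matrix.mul_assoc]
      rw [e1, w3, h1]
      have : S * (W * W * γ * (W * W)) * S = (S * W) * W * γ * W * (W * S) := by
        simp only [Matrix.mul_assoc]
      rw [this, w1, w2]
      simp
    rw [hQ, Matrix.mul_sub, Matrix.sub_mul, h2, Matrix.mul_one, hJ.t_mul]
  refine ⟨S, R, hSpure, by rwa [hSS], hR, ?_, ?_⟩
  · have h1 : (Jᵀ * R * J).PosSemidef := psd_conj hR J
    have h2 : Jᵀ * R * J = R := by
      apply sqrt_unique h1 hR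
      have : Jᵀ * R * J * (Jᵀ * R * J) = Jᵀ * (R * (J * Jᵀ) * R) * J := by
        simp only [Matrix.mul_assoc]
      rw [this, hJ.mul_t, Matrix.mul_one, hRR, hJQ]
    calc J * R = J * (Jᵀ * R * J) := by rw [h2]
      _ = (J * Jᵀ) * R * J := by simp only [Matrix.mul_assoc]
      _ = R * J := by rw [hJ.mul_t, Matrix.one_mul]
  · rw [hRR, hQ, add_sub_cancel]
    have : S * (W * γ * W) * S = (S * W) * γ * (W * S) := by simp only [Matrix.mul_assoc]
    rw [this, w1, w2, Matrix.one_mul, Matrix.mul_one]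

/-! ### Pseudo-inverses -/

theorem pinv {J R : Matrix N N ℝ} (hR : R.PosSemidef) (hJR : J * R = R * J) :
    ∃ Rp : Matrix N N ℝ, Rpᵀ = Rp ∧ J * Rp = Rp * J ∧ Rp * R = R * Rp ∧ R * Rp * R = R ∧
      (R * Rp) * (R * Rp) = R * Rp := by
  obtain ⟨V, hV1, hV2, hV3⟩ := spec hR.1
  set lam := hR.1.eigenvalues with hlam
  have hprod : ∀ f g : N → ℝ, V * diagonal f * Vᵀ * (V * diagonal g * Vᵀ) =
      V * diagonal (fun i => f i * g i) * Vᵀ := by
    intro f g
    have : V * diagonal f * Vᵀ * (V * diagonal g * Vᵀ) =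
        V * (diagonal f * (Vᵀ * V) * diagonal g) * Vᵀ := by simp only [Matrix.mul_assoc]
    rw [this, hV1, Matrix.mul_one, diagonal_mul_diagonal]
  have hRRp : R * (V * diagonal (fun i => (lam i)⁻¹) * Vᵀ) =
      V * diagonal (fun i => lam i * (lam i)⁻¹) * Vᵀ := by
    conv_lhs => rw [hV3]
    exact hprod _ _
  refine ⟨V * diagonal (fun i => (lam i)⁻¹) * Vᵀ, ?_, ?_, ?_, ?_, ?_⟩
  · rw [transpose_mul, transpose_mul, transpose_transpose, diagonal_transpose, Matrix.mul_assoc]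
  · set K := Vᵀ * J * V with hK
    have hJK : J = V * K * Vᵀ := by
      rw [hK]
      have : V * (Vᵀ * J * V) * Vᵀ = (V * Vᵀ) * J * (V * Vᵀ) := by simp only [Matrix.mul_assoc]
      rw [this, hV2]; simp
    have h1 : K * diagonal lam = diagonal lam * K := by
      have e1 : Vᵀ * (J * R) * V = K * diagonal lam := by
        rw [hK]
        conv_lhs => rw [hV3]
        have : Vᵀ * (J * (V * diagonal lam * Vᵀ)) * V = Vᵀ * J * V * diagonal lam * (Vᵀ * V) := by
          simp only [Matrix.mul_assoc]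
        rw [this, hV1, Matrix.mul_one]
      have e2 : Vᵀ * (R * J) * V = diagonal lam * K := by
        rw [hK]
        conv_lhs => rw [hV3]
        have : Vᵀ * (V * diagonal lam * Vᵀ * J) * V = (Vᵀ * V) * diagonal lam * (Vᵀ * J * V) := by
          simp only [Matrix.mul_assoc]
        rw [this, hV1, Matrix.one_mul]
      rw [← e1, ← e2, hJR]
    have h2 : K * diagonal (fun i => (lam i)⁻¹) = diagonal (fun i => (lam i)⁻¹) * K := by
      ext i j
      have h3 := congrFun (congrFun h1 i) j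
      rw [Matrix.mul_diagonal, Matrix.diagonal_mul] at h3 ⊢
      by_cases hK0 : K i j = 0
      · rw [hK0]; ring
      · have : lam j = lam i := by
          have h4 : K i j * (lam j - lam i) = 0 := by linarith
          rcases mul_eq_zero.1 h4 with h5 | h5
          · exact absurd h5 hK0
          · linarith
        rw [this]; ring
    conv_lhs => rw [hJK]
    conv_rhs => rw [hJK]
    have e1 : V * K * Vᵀ * (V * diagonal (fun i => (lam i)⁻¹) * Vᵀ) =
        V * (K * (Vᵀ * V) * diagonal (fun i => (lam i)⁻¹)) * Vᵀ := by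
      simp only [Matrix.mul_assoc]
    have e2 : V * diagonal (fun i => (lam i)⁻¹) * Vᵀ * (V * K * Vᵀ) =
        V * (diagonal (fun i => (lam i)⁻¹) * (Vᵀ * V) * K) * Vᵀ := by
      simp only [Matrix.mul_assoc]
    rw [e1, e2, hV1, Matrix.mul_one, Matrix.mul_one, h2]
  · rw [hRRp]
    conv_lhs => rw [hV3]
    rw [hprod]
    congr 3
    funext i
    ring
  · rw [hRRp]
    conv_lhs => rw [hV3]
    conv_rhs => rw [hV3]
    rw [hprod]
    congr 3
    funext i
    by_cases h : lam i = 0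
    · rw [h]; ring
    · rw [mul_inv_cancel₀ h, one_mul]
  · rw [hRRp, hprod]
    congr 3
    funext i
    by_cases h : lam i = 0
    · rw [h]; ring
    · rw [mul_inv_cancel₀ h, one_mul]

/-- the structure of the pure matrices below `1 + R²` on the kernel of `R` -/
theorem kernel_part {J B R Rp : Matrix N N ℝ} (hJ : IsJ J) (hB : Pure J B)
    (hR : R.PosSemidef) (hJR : J * R = R * J) (hle : (1 + R * R - B).PosSemidef)
    (h1 : Rpᵀ = Rp) (h2 : J * Rp = Rp * J) (h3 : Rp * R = R * Rp) (h4 : R * Rp * R = R)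
    (h5 : (R * Rp) * (R * Rp) = R * Rp) : R * Rp * (B - 1) * (Rp * R) = B - 1 := by
  set E := R * Rp with hE
  have hEt : Eᵀ = E := by rw [hE, transpose_mul, h1, psd_symm hR, h3]
  set F := 1 - E with hF
  have hFt : Fᵀ = F := by rw [hF, transpose_sub, transpose_one, hEt]
  have hFF : F * F = F := by
    have : F * F = 1 - E - E + E * E := by rw [hF]; noncomm_ring
    rw [this, h5, hF]; abel
  have hRF : R * F = 0 := by
    have hRE : R * E = R := by rw [← h3, ← Matrix.mul_assoc, ← hE, h4]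
    rw [hF, Matrix.mul_sub, Matrix.mul_one, hRE, sub_self]
  have hJE : J * E = E * J := by
    rw [hE, ← Matrix.mul_assoc, hJR, Matrix.mul_assoc, h2, Matrix.mul_assoc]
  have hJF : J * F = F * J := by
    rw [hF, Matrix.mul_sub, Matrix.sub_mul, Matrix.mul_one, Matrix.one_mul, hJE]
  have hFR : F * R = 0 := by
    have := congrArg Matrix.transpose hRF
    rwa [transpose_mul, hFt, psd_symm hR, transpose_zero] at this
  have k1 : (F - F * B * F).PosSemidef := by
    have := psd_conj hle F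
    rw [hFt] at this
    have e : F * (1 + R * R - B) * F = F - F * B * F := by
      have : F * (1 + R * R - B) * F = F * F + (F * R) * (R * F) - F * B * F := by noncomm_ring
      rw [this, hFF, hFR, Matrix.zero_mul, add_zero]
    rwa [e] at this
  have hBinv := hB.inv_eq hJ
  have k2 : (F - F * B⁻¹ * F).PosSemidef := by
    have := psd_conj k1 J
    have e : Jᵀ * (F - F * B * F) * J = F - F * B⁻¹ * F := by
      rw [hBinv, Matrix.mul_sub, Matrix.sub_mul]
      have e1 : Jᵀ * F * J = F := by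
        rw [Matrix.mul_assoc, ← hJF, ← Matrix.mul_assoc, hJ.t_mul, Matrix.one_mul]
      have e2 : F * Jᵀ = Jᵀ * F := by rw [hJ.1, Matrix.mul_neg, Matrix.neg_mul, hJF]
      have e3 : Jᵀ * (F * B * F) * J = F * (Jᵀ * B * J) * F := by
        calc Jᵀ * (F * B * F) * J = (Jᵀ * F) * B * (F * J) := by simp only [Matrix.mul_assoc]
          _ = (F * Jᵀ) * B * (J * F) := by rw [e2, hJF]
          _ = _ := by simp only [Matrix.mul_assoc]
      rw [e1, e3]
    rwa [e] at this
  set Y := (B - 1) * F with hY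
  have hBB : B * B⁻¹ = 1 := Matrix.mul_nonsing_inv B (pd_unit hB.1)
  have hBB' : B⁻¹ * B = 1 := Matrix.nonsing_inv_mul B (pd_unit hB.1)
  have e1 : Yᵀ * B⁻¹ * Y = -((F - F * B * F) + (F - F * B⁻¹ * F)) := by
    rw [hY, transpose_mul (B - 1) F, hFt, transpose_sub, transpose_one, pd_symm hB.1]
    have : F * (B - 1) * B⁻¹ * ((B - 1) * F) =
        F * (B * B⁻¹) * B * F - F * (B * B⁻¹) * F - F * (B⁻¹ * B) * F + F * B⁻¹ * F := by
      noncomm_ring
    rw [this, hBB, hBB']
    simp only [Matrix.mul_one, hFF]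
    abel
  have hYpsd : (Yᵀ * B⁻¹ * Y).PosSemidef := psd_conj hB.1.inv.posSemidef Y
  have hYneg : (-(Yᵀ * B⁻¹ * Y)).PosSemidef := by
    rw [e1, neg_neg]
    exact k1.add k2
  have hY0 : Yᵀ * B⁻¹ * Y = 0 := by
    apply le_antisymm
    · rw [Matrix.le_iff, zero_sub]; exact hYneg
    · exact hYpsd.nonneg
  obtain ⟨S, hS, hSS⟩ := exists_sqrt_pd hB.1.inv
  have hSY : S * Y = 0 := by
    have : (S * Y)ᴴ * (S * Y) = 0 := by
      rw [conjTranspose_eq_transpose_of_trivial, transpose_mul, pd_symm hS, ← hY0, ← hSS]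
      simp only [Matrix.mul_assoc]
    exact Matrix.conjTranspose_mul_self_eq_zero.1 this
  have hYz : Y = 0 := by
    have : S⁻¹ * (S * Y) = 0 := by rw [hSY, Matrix.mul_zero]
    rwa [← Matrix.mul_assoc, Matrix.nonsing_inv_mul _ (pd_unit hS), Matrix.one_mul] at this
  have e2 : (B - 1) * E = B - 1 := by
    have : (B - 1) * E = (B - 1) - Y := by rw [hY, hF]; noncomm_ring
    rw [this, hYz, sub_zero]
  have e3 : E * (B - 1) = B - 1 := by
    have := congrArg Matrix.transpose e2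
    rwa [transpose_mul, transpose_sub, transpose_one, hEt, pd_symm hB.1] at this
  rw [e3, h3, e2]

/-! ### Complexification -/

/-- complexification of a real matrix -/
def cx (M : Matrix N N ℝ) : Matrix N N ℂ := M.map (fun x : ℝ => (x : ℂ))

theorem cx_mul (A B : Matrix N N ℝ) : cx (A * B) = cx A * cx B :=
  Matrix.map_mul (f := Complex.ofRealHom)

theorem cx_add (A B : Matrix N N ℝ) : cx (A + B) = cx A + cx B := by
  ext i j; simp [cx]

theorem cx_sub (A B : Matrix N N ℝ) : cx (A - B) = cx A - cx B := by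
  ext i j; simp [cx]

theorem cx_smul (s : ℝ) (A : Matrix N N ℝ) : cx (s • A) = s • cx A := by
  ext i j; simp [cx]

theorem cx_one : cx (1 : Matrix N N ℝ) = 1 := by
  ext i j
  by_cases h : i = j
  · subst h; simp [cx]
  · simp [cx, h]

theorem cx_conj (A : Matrix N N ℝ) : (cx A)ᴴ = cx Aᵀ := by
  ext i j; simp [cx]

theorem cx_psd {A : Matrix N N ℝ} (hA : A.PosSemidef) : (cx A).PosSemidef := by
  obtain ⟨R, hR, rfl⟩ := exists_sqrt hA
  have : cx (R * R) = (cx R)ᴴ * cx R := by rw [cx_conj, psd_symm hR, cx_mul]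
  rw [this]
  exact posSemidef_conjTranspose_mul_self _

/-- the matrix `1 - iJ` -/
noncomputable def JJ (J : Matrix N N ℝ) : Matrix N N ℂ := 1 - Complex.I • cx J

theorem JJ_herm {J : Matrix N N ℝ} (hJ : IsJ J) : (JJ J)ᴴ = JJ J := by
  unfold JJ
  rw [conjTranspose_sub, conjTranspose_one, conjTranspose_smul, cx_conj, hJ.1]
  ext i j
  simp [cx]

theorem JJ_sq {J : Matrix N N ℝ} (hJ : IsJ J) : JJ J * JJ J = (2 : ℝ) • JJ J := by
  unfold JJ
  have h1 : cx J * cx J = -1 := by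
    rw [← cx_mul, hJ.2]
    ext i j
    by_cases h : i = j
    · subst h; simp [cx]
    · simp [cx, h]
  have h0 : (Complex.I • cx J) * (Complex.I • cx J) = (Complex.I * Complex.I) • (cx J * cx J) := by
    rw [Matrix.smul_mul, Matrix.mul_smul, smul_smul]
  have h2 : (1 - Complex.I • cx J) * (1 - Complex.I • cx J) =
      1 - Complex.I • cx J - Complex.I • cx J + (Complex.I * Complex.I) • (cx J * cx J) := by
    rw [← h0]
    have h3 : ∀ X : Matrix N N ℂ, (1 - X) * (1 - X) = 1 - X - X + X * X := by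
      intro X
      noncomm_ring
    exact h3 _
  rw [h2, h1, Complex.I_mul_I, two_smul]
  simp only [smul_neg, neg_smul, one_smul, neg_neg]
  abel

theorem JJ_psd {J K : Matrix N N ℝ} (hJ : IsJ J) (hK : K.PosSemidef) (hJK : J * K = K * J) :
    (JJ J * cx K).PosSemidef := by
  have h1 : cx K * JJ J = JJ J * cx K := by
    unfold JJ
    rw [Matrix.mul_sub, Matrix.sub_mul, Matrix.mul_one, Matrix.one_mul, Matrix.mul_smul,
      Matrix.smul_mul, ← cx_mul, ← cx_mul, hJK]
  have h2 := ((cx_psd hK).mul_mul_conjTranspose_same (JJ J))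
  rw [JJ_herm hJ, Matrix.mul_assoc, h1, ← Matrix.mul_assoc, JJ_sq hJ, Matrix.smul_mul] at h2
  have h3 := h2.smul (show (0 : ℝ) ≤ 1 / 2 by norm_num)
  rw [smul_smul] at h3
  norm_num at h3
  exact h3

theorem cov_iff_cx {J γ : Matrix N N ℝ} :
    Cov J γ ↔ γᵀ = γ ∧ (cx γ - Complex.I • cx J).PosSemidef := Iff.rfl

theorem Pure.cov {J A : Matrix N N ℝ} (hJ : IsJ J) (hA : Pure J A) : Cov J A := by
  obtain ⟨S, hS, rfl⟩ := hA.exists_symp hJ
  rw [cov_iff_cx]
  refine ⟨by rw [transpose_mul, transpose_transpose], ?_⟩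
  have h1 := JJ_psd hJ (Matrix.PosSemidef.one (n := N) (R := ℝ)) (by simp)
  rw [cx_one, Matrix.mul_one] at h1
  have h2 := h1.conjTranspose_mul_mul_same (cx S)
  have h3 : (cx S)ᴴ * JJ J * cx S = cx (Sᵀ * S) - Complex.I • cx J := by
    unfold JJ
    rw [Matrix.mul_sub, Matrix.sub_mul, Matrix.mul_one, cx_conj, Matrix.mul_smul, Matrix.smul_mul,
      ← cx_mul, ← cx_mul, ← cx_mul, hS]
  rwa [h3] at h2

theorem Cov.conj {J X S : Matrix N N ℝ} (hX : Cov J X) (hS : Pure J S) : Cov J (S * X * S) := by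
  rw [cov_iff_cx] at hX ⊢
  have hSt := pd_symm hS.1
  refine ⟨?_, ?_⟩
  · rw [transpose_mul, transpose_mul, hX.1, hSt, Matrix.mul_assoc]
  · have h2 := hX.2.conjTranspose_mul_mul_same (cx S)
    have h3 : (cx S)ᴴ * (cx X - Complex.I • cx J) * cx S =
        cx (S * X * S) - Complex.I • cx J := by
      rw [Matrix.mul_sub, Matrix.sub_mul, cx_conj, hSt, Matrix.mul_smul, Matrix.smul_mul,
        ← cx_mul, ← cx_mul, ← cx_mul, ← cx_mul, hS.2]
    rwa [h3] at h2

theorem cov_X {J B R Rp : Matrix N N ℝ} (hJ : IsJ J) (hB : Cov J B) (hR : Rᵀ = R)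
    (hJR : J * R = R * J) (hRp : Rpᵀ = Rp) (hJRp : J * Rp = Rp * J) {s : ℝ} (hs : 0 ≤ s)
    (hK : (1 - s • (R * (Rp * Rp) * R)).PosSemidef) :
    Cov J (1 + s • (R * (Rp * (B - 1) * Rp) * R)) := by
  have hBt := hB.1
  rw [cov_iff_cx] at hB ⊢
  refine ⟨?_, ?_⟩
  · rw [transpose_add, transpose_one, transpose_smul]
    simp only [transpose_mul, transpose_sub, transpose_one, hR, hRp, hB.1, Matrix.mul_assoc]
  · have hJK : J * (1 - s • (R * (Rp * Rp) * R)) = (1 - s • (R * (Rp * Rp) * R)) * J := by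
      have e : J * (R * (Rp * Rp) * R) = R * (Rp * Rp) * R * J := by
        calc J * (R * (Rp * Rp) * R) = (J * R) * (Rp * Rp) * R := by simp only [Matrix.mul_assoc]
          _ = R * (J * Rp) * Rp * R := by rw [hJR]; simp only [Matrix.mul_assoc]
          _ = R * Rp * (J * Rp) * R := by
            conv_lhs => rw [hJRp]
            simp only [Matrix.mul_assoc]
          _ = R * Rp * Rp * (J * R) := by
            conv_lhs => rw [hJRp]
            simp only [Matrix.mul_assoc]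
          _ = _ := by rw [hJR]; simp only [Matrix.mul_assoc]
      rw [Matrix.mul_sub, Matrix.sub_mul, Matrix.mul_one, Matrix.one_mul, Matrix.mul_smul,
        Matrix.smul_mul, e]
    have h1 := JJ_psd hJ hK hJK
    have h2 := (hB.2.conjTranspose_mul_mul_same (cx (Rp * R))).smul hs
    have h3 := h1.add h2
    have h4 : (cx (Rp * R))ᴴ * (cx B - Complex.I • cx J) * cx (Rp * R) =
        cx (R * (Rp * (B - 1) * Rp) * R) + JJ J * cx (R * (Rp * Rp) * R) := by
      have e0 : (Rp * R)ᵀ * J * (Rp * R) = J * (R * (Rp * Rp) * R) := by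
        rw [transpose_mul, hR, hRp]
        calc R * Rp * J * (Rp * R) = R * (Rp * J) * Rp * R := by simp only [Matrix.mul_assoc]
          _ = R * J * Rp * Rp * R := by
            rw [← hJRp]
            simp only [Matrix.mul_assoc]
          _ = J * R * Rp * Rp * R := by rw [← hJR]
          _ = _ := by simp only [Matrix.mul_assoc]
      have e1 : (Rp * R)ᵀ * B * (Rp * R) =
          R * (Rp * (B - 1) * Rp) * R + R * (Rp * Rp) * R := by
        rw [transpose_mul, hR, hRp]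
        noncomm_ring
      unfold JJ
      rw [cx_conj, Matrix.mul_sub, Matrix.sub_mul, Matrix.mul_smul, Matrix.smul_mul, ← cx_mul,
        ← cx_mul, ← cx_mul, ← cx_mul, e0, e1, cx_add, Matrix.sub_mul, Matrix.one_mul,
        Matrix.smul_mul, ← cx_mul]
      abel
    rw [h4] at h3
    have h5 : JJ J * cx (1 - s • (R * (Rp * Rp) * R)) +
        s • (cx (R * (Rp * (B - 1) * Rp) * R) + JJ J * cx (R * (Rp * Rp) * R)) =
        cx (1 + s • (R * (Rp * (B - 1) * Rp) * R)) - Complex.I • cx J := by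
      rw [cx_sub, cx_one, cx_smul, cx_add, cx_one, cx_smul, Matrix.mul_sub, Matrix.mul_one,
        Matrix.mul_smul, smul_add]
      unfold JJ
      abel
    rwa [h5] at h3

theorem exists_upper {M : Matrix N N ℝ} (h : M.PosSemidef) :
    ∃ t : ℝ, 0 ≤ t ∧ (t • (1 : Matrix N N ℝ) - M).PosSemidef := by
  obtain ⟨V, hV1, hV2, hV3⟩ := spec h.1
  refine ⟨∑ i, h.1.eigenvalues i, Finset.sum_nonneg fun i _ => h.eigenvalues_nonneg i, ?_⟩
  set t := ∑ i, h.1.eigenvalues i with ht
  have : t • (1 : Matrix N N ℝ) - M = Vᵀᵀ * diagonal (fun i => t - h.1.eigenvalues i) * Vᵀ := by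
    have e1 : diagonal (fun i => t - h.1.eigenvalues i) =
        t • (1 : Matrix N N ℝ) - diagonal h.1.eigenvalues := by
      rw [← diagonal_one, ← diagonal_smul, diagonal_sub]
      congr 1
      funext i
      simp
    rw [transpose_transpose, e1, Matrix.mul_sub, Matrix.sub_mul, ← hV3, Matrix.mul_smul,
      Matrix.smul_mul, Matrix.mul_one, hV2]
  rw [this]
  apply psd_conj
  rw [posSemidef_diagonal_iff]
  intro i
  have := Finset.single_le_sum (f := fun i => h.1.eigenvalues i)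
    (fun k _ => h.eigenvalues_nonneg k) (Finset.mem_univ i)
  rw [← ht] at this
  linarith

/-! ### Upper semicontinuity -/

theorem usc {J γ₀ : Matrix N N ℝ} (hJ : IsJ J) (h₀ : Cov J γ₀) (U : Ultrafilter (Matrix N N ℝ))
    (hU : (U : Filter (Matrix N N ℝ)) ≤ 𝓝 γ₀) (hC : ∀ᶠ γ in (U : Filter _), Cov J γ)
    {ε : ℝ} (hε : 0 < ε) : ∀ᶠ γ in (U : Filter _), GG J γ ≤ GG J γ₀ + ε := by
  have hid : Tendsto (fun γ : Matrix N N ℝ => γ) U (𝓝 γ₀) := hU
  have hex : ∀ γ : Matrix N N ℝ, ∃ S R : Matrix N N ℝ, Cov J γ →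
      (Pure J S ∧ (γ - S * S).PosSemidef ∧ R.PosSemidef ∧ J * R = R * J ∧
        γ = S * (1 + R * R) * S) := by
    intro γ
    by_cases h : Cov J γ
    · obtain ⟨S, R, hSR⟩ := normal_form hJ h
      exact ⟨S, R, fun _ => hSR⟩
    · exact ⟨0, 0, fun h' => absurd h' h⟩
  choose S R hSR using hex
  obtain ⟨c, hc⟩ := bdd_diag hid
  -- convergence of `S`
  obtain ⟨S₀, hS₀⟩ : ∃ M : Matrix N N ℝ, Tendsto S U (𝓝 M) := by
    apply conv_of_bdd U S (c + 1)
    filter_upwards [hc, hC] with γ h1 h2 i j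
    obtain ⟨hp, hle, _⟩ := hSR γ h2
    apply abs_entry_le (pd_symm hp.1) i j
    exact (diag_le_of_psd hle i).trans (h1 i)
  have hS₀p : Pure J S₀ := pure_lim hJ hS₀ (hC.mono fun γ h => (hSR γ h).1)
  set W : Matrix N N ℝ → Matrix N N ℝ := fun γ => Jᵀ * S γ * J with hW
  set W₀ := Jᵀ * S₀ * J with hW₀
  obtain ⟨w1, w2, w3, w4, w5⟩ := conj_unit_mul hJ hS₀p hW₀
  have hWlim : Tendsto W U (𝓝 W₀) :=
    (tendsto_const_nhds.mul hS₀).mul tendsto_const_nhds
  have hRR : ∀ γ, Cov J γ → R γ * R γ = W γ * γ * W γ - 1 := by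
    intro γ h
    obtain ⟨hp, _, _, _, hγ⟩ := hSR γ h
    obtain ⟨v1, v2, v3, v4, v5⟩ := conj_unit_mul hJ hp (rfl : Jᵀ * S γ * J = Jᵀ * S γ * J)
    have e : W γ * γ * W γ = 1 + R γ * R γ := by
      have e0 : W γ * γ * W γ = W γ * (S γ * (1 + R γ * R γ) * S γ) * W γ :=
        congrArg (fun X => W γ * X * W γ) hγ
      have : W γ * (S γ * (1 + R γ * R γ) * S γ) * W γ =
          (W γ * S γ) * (1 + R γ * R γ) * (S γ * W γ) := by simp only [Matrix.mul_assoc]
      rw [e0, this, v1, v2, Matrix.one_mul, Matrix.mul_one]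
    rw [e, add_sub_cancel_left]
  have hQlim : Tendsto (fun γ => W γ * γ * W γ - 1) U (𝓝 (W₀ * γ₀ * W₀ - 1)) :=
    ((hWlim.mul hid).mul hWlim).sub tendsto_const_nhds
  obtain ⟨c', hc'⟩ := bdd_diag hQlim
  obtain ⟨R₀, hR₀⟩ : ∃ M : Matrix N N ℝ, Tendsto R U (𝓝 M) := by
    apply conv_of_bdd U R (c' + 1)
    filter_upwards [hc', hC] with γ h1 h2 i j
    obtain ⟨_, _, hR, _⟩ := hSR γ h2
    apply abs_entry_le (psd_symm hR) i j
    rw [hRR γ h2]
    exact h1 i
  have hR₀psd : R₀.PosSemidef := psd_lim hR₀ (hC.mono fun γ h => (hSR γ h).2.2.1)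
  have hJR₀ : J * R₀ = R₀ * J := by
    have e1 : Tendsto (fun γ => J * R γ) U (𝓝 (J * R₀)) := tendsto_const_nhds.mul hR₀
    have e2 : Tendsto (fun γ => J * R γ) U (𝓝 (R₀ * J)) := by
      apply (hR₀.mul tendsto_const_nhds).congr'
      filter_upwards [hC] with γ h
      exact ((hSR γ h).2.2.2.1).symm
    exact tendsto_nhds_unique e1 e2
  have hγ₀ : γ₀ = S₀ * (1 + R₀ * R₀) * S₀ := by
    have e1 : Tendsto (fun γ => S γ * (1 + R γ * R γ) * S γ) U
        (𝓝 (S₀ * (1 + R₀ * R₀) * S₀)) :=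
      (hS₀.mul (tendsto_const_nhds.add (hR₀.mul hR₀))).mul hS₀
    have e2 : Tendsto (fun γ => S γ * (1 + R γ * R γ) * S γ) U (𝓝 γ₀) := by
      apply hid.congr'
      filter_upwards [hC] with γ h
      exact (hSR γ h).2.2.2.2
    exact tendsto_nhds_unique e2 e1
  -- a nearly optimal pure matrix below `γ₀`
  obtain ⟨x, ⟨A₀, hA₀, hA₀le, rfl⟩, hx⟩ := exists_lt_of_csInf_lt (h₀.nonempty_GG hJ)
    (show sInf {x : ℝ | ∃ A, Pure J A ∧ (γ₀ - A).PosSemidef ∧ x = L A / 2} <
      GG J γ₀ + ε / 2 by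
        have : GG J γ₀ < GG J γ₀ + ε / 2 := by linarith
        exact this)
  set B := W₀ * A₀ * W₀ with hB
  have hBpure : Pure J B := by
    refine ⟨?_, ?_⟩
    · have hWu : IsUnit W₀.det := by
        have := congrArg Matrix.det w1
        rw [det_mul, det_one, mul_comm] at this
        exact IsUnit.of_mul_eq_one _ this
      have := pd_conj hA₀.1 hWu
      rwa [w4] at this
    · rw [hB]
      have : W₀ * A₀ * W₀ * J * (W₀ * A₀ * W₀) = W₀ * (A₀ * (W₀ * J * W₀) * A₀) * W₀ := by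
        simp only [Matrix.mul_assoc]
      rw [this, w5, hA₀.2, w5]
  have hSBS : S₀ * B * S₀ = A₀ := by
    rw [hB]
    have : S₀ * (W₀ * A₀ * W₀) * S₀ = (S₀ * W₀) * A₀ * (W₀ * S₀) := by
      simp only [Matrix.mul_assoc]
    rw [this, w1, w2, Matrix.one_mul, Matrix.mul_one]
  have hBle : (1 + R₀ * R₀ - B).PosSemidef := by
    have h1 := psd_conj hA₀le W₀
    have h2 : W₀ᵀ * (γ₀ - A₀) * W₀ = 1 + R₀ * R₀ - B := by
      rw [w4, Matrix.mul_sub, Matrix.sub_mul, ← hB]
      congr 1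
      rw [hγ₀]
      have : W₀ * (S₀ * (1 + R₀ * R₀) * S₀) * W₀ = (W₀ * S₀) * (1 + R₀ * R₀) * (S₀ * W₀) := by
        simp only [Matrix.mul_assoc]
      rw [this, w1, w2, Matrix.one_mul, Matrix.mul_one]
    rwa [h2] at h1
  obtain ⟨Rp, p1, p2, p3, p4, p5⟩ := pinv hR₀psd hJR₀
  have hker := kernel_part hJ hBpure hR₀psd hJR₀ hBle p1 p2 p3 p4 p5
  set C := Rp * (B - 1) * Rp with hCdef
  have hBt : Bᵀ = B := pd_symm hBpure.1
  have hCt : Cᵀ = C := by
    rw [hCdef]
    simp only [transpose_mul, transpose_sub, transpose_one, p1, hBt, Matrix.mul_assoc]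
  have hRCR : R₀ * C * R₀ = B - 1 := by
    rw [← hker, hCdef]
    simp only [Matrix.mul_assoc]
  set E := R₀ * Rp with hE
  have hEt : Eᵀ = E := by rw [hE, transpose_mul, p1, psd_symm hR₀psd, p3]
  have hE1 : (1 - E).PosSemidef := by
    have : (1 - E)ᵀ * (1 - E) = 1 - E := by
      rw [transpose_sub, transpose_one, hEt]
      have : (1 - E) * (1 - E) = 1 - E - E + E * E := by noncomm_ring
      rw [this, p5]; abel
    rw [← this]
    exact psd_gram _
  have hC1 : (1 - C).PosSemidef := by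
    have h1 := psd_conj hBle Rp
    have h2 : Rpᵀ * (1 + R₀ * R₀ - B) * Rp = E - C := by
      rw [p1, hCdef]
      have : Rp * (1 + R₀ * R₀ - B) * Rp = (Rp * R₀) * (R₀ * Rp) - Rp * (B - 1) * Rp := by
        noncomm_ring
      rw [this, p3, p5]
    rw [h2] at h1
    have h3 := h1.add hE1
    have h4 : E - C + (1 - E) = 1 - C := by abel
    rwa [h4] at h3
  -- constants
  obtain ⟨m, hm, hm'⟩ := exists_lower hA₀.1
  obtain ⟨q, hq, hq'⟩ : ∃ q : ℝ, 0 ≤ q ∧ (q • A₀ - S₀ * S₀).PosSemidef := by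
    have hSS : (S₀ * S₀).PosSemidef := by
      have := psd_gram S₀
      rwa [pd_symm hS₀p.1] at this
    obtain ⟨t, ht, ht'⟩ := exists_upper hSS
    refine ⟨t / m, by positivity, ?_⟩
    have e : (t / m) • A₀ - S₀ * S₀ = (t / m) • (A₀ - m • 1) + (t • 1 - S₀ * S₀) := by
      rw [smul_sub, smul_smul, div_mul_cancel₀ _ hm.ne']
      abel
    rw [e]
    exact (hm'.smul (by positivity)).add ht'
  obtain ⟨δ, hδ, hδ1, hδ'⟩ : ∃ δ : ℝ, 0 < δ ∧ δ ≤ 1 ∧
      (Fintype.card N) * ((q + 1) * δ) ≤ ε := by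
    refine ⟨min 1 (ε / ((Fintype.card N + 1) * (q + 1))), by positivity, min_le_left _ _, ?_⟩
    have h1 : min 1 (ε / ((Fintype.card N + 1) * (q + 1))) ≤ ε / ((Fintype.card N + 1) * (q + 1)) :=
      min_le_right _ _
    have h2 : (0 : ℝ) < (Fintype.card N + 1) * (q + 1) := by positivity
    calc (Fintype.card N : ℝ) * ((q + 1) * min 1 (ε / ((Fintype.card N + 1) * (q + 1))))
        ≤ (Fintype.card N) * ((q + 1) * (ε / ((Fintype.card N + 1) * (q + 1)))) := by
          apply mul_le_mul_of_nonneg_left _ (Nat.cast_nonneg _)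
          exact mul_le_mul_of_nonneg_left h1 (by positivity)
      _ = ε * ((Fintype.card N) / (Fintype.card N + 1)) := by field_simp
      _ ≤ ε * 1 := by
          apply mul_le_mul_of_nonneg_left _ hε.le
          rw [div_le_one (by positivity)]
          linarith
      _ = ε := mul_one _
  set s : ℝ := 1 - δ with hs
  have hs0 : 0 ≤ s := by rw [hs]; linarith
  -- eventually `1 - s R Rp² R ≥ 0`
  have hK : ∀ᶠ γ in (U : Filter (Matrix N N ℝ)),
      (1 - s • (R γ * (Rp * Rp) * R γ)).PosSemidef := by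
    have hlim : Tendsto (fun γ => 1 - s • (R γ * (Rp * Rp) * R γ)) U
        (𝓝 (1 - s • (R₀ * (Rp * Rp) * R₀))) :=
      tendsto_const_nhds.sub (((hR₀.mul tendsto_const_nhds).mul hR₀).const_smul s)
    have hEE : R₀ * (Rp * Rp) * R₀ = E := by
      have : R₀ * (Rp * Rp) * R₀ = (R₀ * Rp) * (Rp * R₀) := by simp only [Matrix.mul_assoc]
      rw [this, p3, p5]
    rw [hEE] at hlim
    have hPD : (1 - s • E).PosDef := by
      have : 1 - s • E = δ • (1 : Matrix N N ℝ) + s • (1 - E) := by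
        simp only [smul_sub, hs, sub_smul, one_smul]
        abel
      rw [this]
      exact (Matrix.PosDef.one.smul hδ).add_posSemidef (hE1.smul hs0)
    apply eventually_psd hPD hlim
    filter_upwards [hC] with γ h
    obtain ⟨_, _, hR, _⟩ := hSR γ h
    rw [transpose_sub, transpose_one, transpose_smul]
    simp only [transpose_mul, p1, psd_symm hR, Matrix.mul_assoc]
  -- the approximating covariance matrices
  set Y : Matrix N N ℝ → Matrix N N ℝ := fun γ => S γ * (1 + s • (R γ * C * R γ)) * S γ with hY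
  have hYlim : Tendsto Y U (𝓝 (S₀ * (1 + s • (R₀ * C * R₀)) * S₀)) :=
    (hS₀.mul (tendsto_const_nhds.add (((hR₀.mul tendsto_const_nhds).mul hR₀).const_smul s))).mul
      hS₀
  have hY₀ : S₀ * (1 + s • (R₀ * C * R₀)) * S₀ = s • A₀ + δ • (S₀ * S₀) := by
    rw [hRCR]
    have h1 : S₀ * (1 + s • (B - 1)) * S₀ = s • (S₀ * B * S₀) + (1 - s) • (S₀ * S₀) := by
      have : (1 : Matrix N N ℝ) + s • (B - 1) = s • B + (1 - s) • (1 : Matrix N N ℝ) := by
        simp only [smul_sub, sub_smul, one_smul]; abel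
      rw [this, Matrix.mul_add, Matrix.add_mul, Matrix.mul_smul, Matrix.smul_mul, Matrix.mul_smul,
        Matrix.smul_mul, Matrix.mul_one]
    rw [h1, hSBS, hs]
    congr 2
    ring
  rw [hY₀] at hYlim
  have hYt : ∀ γ, Cov J γ → (Y γ)ᵀ = Y γ := by
    intro γ h
    obtain ⟨hp, _, hR, _⟩ := hSR γ h
    rw [hY]
    simp only [transpose_mul, transpose_add, transpose_one, transpose_smul, hCt, psd_symm hR,
      pd_symm hp.1, Matrix.mul_assoc]
  have hYle : ∀ γ, Cov J γ → (γ - Y γ).PosSemidef := by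
    intro γ h
    obtain ⟨hp, _, hR, _, hγ⟩ := hSR γ h
    have h1 : (R γ * R γ - s • (R γ * C * R γ)).PosSemidef := by
      have h2 := (psd_conj hC1 (R γ)).smul hs0
      have h3 := (psd_gram (R γ)).smul hδ.le
      have h4 := h2.add h3
      rw [psd_symm hR] at h4
      have h5 : s • (R γ * (1 - C) * R γ) + δ • (R γ * R γ) =
          R γ * R γ - s • (R γ * C * R γ) := by
        rw [Matrix.mul_sub, Matrix.sub_mul, Matrix.mul_one, smul_sub, hs, sub_smul, one_smul]
        abel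
      rwa [h5] at h4
    have h6 := psd_conj h1 (S γ)
    rw [pd_symm hp.1] at h6
    have h7 : S γ * (R γ * R γ - s • (R γ * C * R γ)) * S γ = γ - Y γ := by
      have e0 : γ - Y γ = S γ * (1 + R γ * R γ) * S γ - Y γ :=
        congrArg (fun X => X - Y γ) hγ
      rw [e0]
      change _ = S γ * (1 + R γ * R γ) * S γ - S γ * (1 + s • (R γ * C * R γ)) * S γ
      rw [← Matrix.sub_mul, ← Matrix.mul_sub, add_sub_add_left_eq_sub]
    rwa [h7] at h6
  have hYcov : ∀ᶠ γ in (U : Filter (Matrix N N ℝ)), Cov J (Y γ) := by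
    filter_upwards [hK, hC] with γ h1 h2
    obtain ⟨hp, _, hR, hJR, _⟩ := hSR γ h2
    exact (cov_X hJ (hBpure.cov hJ) (psd_symm hR) hJR p1 p2 hs0 h1).conj hp
  -- eventually `Y γ ≤ (1 + (q+1) δ) A₀`
  have hYA : ∀ᶠ γ in (U : Filter (Matrix N N ℝ)),
      ((1 + (q + 1) * δ) • A₀ - Y γ).PosSemidef := by
    have hPD : ((1 + (q + 1) * δ) • A₀ - (s • A₀ + δ • (S₀ * S₀))).PosDef := by
      have : (1 + (q + 1) * δ) • A₀ - (s • A₀ + δ • (S₀ * S₀)) =
          (2 * δ) • A₀ + δ • (q • A₀ - S₀ * S₀) := by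
        rw [smul_sub, smul_smul, hs]
        have : (1 + (q + 1) * δ) • A₀ = (1 - δ) • A₀ + (2 * δ) • A₀ + (δ * q) • A₀ := by
          rw [← add_smul, ← add_smul]; congr 1; ring
        rw [this]
        abel
      rw [this]
      exact (hA₀.1.smul (by positivity)).add_posSemidef (hq'.smul hδ.le)
    apply eventually_psd hPD (tendsto_const_nhds.sub hYlim)
    filter_upwards [hC] with γ h
    rw [transpose_sub, transpose_smul, pd_symm hA₀.1, hYt γ h]
  filter_upwards [hYcov, hYA, hC] with γ h1 h2 h3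
  obtain ⟨Z, hZ, hZle⟩ := h1.exists_pure hJ
  have h4 : (γ - Z).PosSemidef := by
    have := (hYle γ h3).add hZle
    have e : γ - Y γ + (Y γ - Z) = γ - Z := by abel
    rwa [e] at this
  have h5 : ((1 + (q + 1) * δ) • A₀ - Z).PosSemidef := by
    have := h2.add hZle
    have e : (1 + (q + 1) * δ) • A₀ - Y γ + (Y γ - Z) = (1 + (q + 1) * δ) • A₀ - Z := by abel
    rwa [e] at this
  have hone : 1 ≤ 1 + (q + 1) * δ := by
    have : 0 ≤ (q + 1) * δ := by positivity
    linarith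
  have h6 := L_mono_smul hZ.1 hA₀.1 hone h5
  have h7 : GG J γ ≤ L Z / 2 := csInf_le (bddBelow_GG _ _) ⟨Z, hZ, h4, rfl⟩
  have h8 : Real.log (1 + (q + 1) * δ) ≤ (q + 1) * δ := by
    have := Real.log_le_sub_one_of_pos (show 0 < 1 + (q + 1) * δ by linarith)
    linarith
  have h9 : (Fintype.card N : ℝ) * Real.log (1 + (q + 1) * δ) ≤ ε := by
    refine le_trans ?_ hδ'
    exact mul_le_mul_of_nonneg_left h8 (Nat.cast_nonneg _)
  linarith

/-- **Continuity.** -/
theorem GG_continuousOn {J : Matrix N N ℝ} (hJ : IsJ J) :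
    ContinuousOn (GG J) {γ | Cov J γ} := by
  intro γ₀ h₀
  rw [ContinuousWithinAt, Metric.tendsto_nhds]
  intro ε hε
  rw [Filter.Eventually, Filter.mem_iff_ultrafilter]
  intro U hU
  have hU1 : (U : Filter (Matrix N N ℝ)) ≤ 𝓝 γ₀ := hU.trans nhdsWithin_le_nhds
  have hU2 : ∀ᶠ γ in (U : Filter (Matrix N N ℝ)), Cov J γ := hU self_mem_nhdsWithin
  have h1 := usc hJ h₀ U hU1 hU2 (half_pos hε)
  have h2 := lsc hJ U hU1 hU2 (half_pos hε)
  have h3 : ∀ᶠ γ in (U : Filter (Matrix N N ℝ)), dist (GG J γ) (GG J γ₀) < ε := by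
    filter_upwards [h1, h2] with γ ha hb
    rw [Real.dist_eq, abs_lt]
    constructor <;> linarith
  exact h3

end Pool.Agent.X133.Sq
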