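import Mathlib

set_option autoImplicit false
set_option linter.unusedSectionVars false

open Matrix Finset
open scoped MatrixOrder

namespace Pool.Agent.X133.Sq

variable {N : Type*} [Fintype N] [DecidableEq N] {T : Type*} [Fintype T] [DecidableEq T]

theorem psd_conj {A : Matrix N N ℝ} (hA : A.PosSemidef) (B : Matrix N T ℝ) :
    (Bᵀ * A * B).PosSemidef := by
  have := hA.conjTranspose_mul_mul_same B
  rwa [conjTranspose_eq_transpose_of_trivial] at this

theorem psd_gram (B : Matrix N T ℝ) : (Bᵀ * B).PosSemidef := by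
  have := posSemidef_conjTranspose_mul_self B
  rwa [conjTranspose_eq_transpose_of_trivial] at this

theorem psd_gram' (B : Matrix N T ℝ) : (B * Bᵀ).PosSemidef := by
  have := posSemidef_self_mul_conjTranspose B
  rwa [conjTranspose_eq_transpose_of_trivial] at this

theorem psd_symm {A : Matrix N N ℝ} (hA : A.PosSemidef) : Aᵀ = A := by
  have := hA.1.eq
  rwa [conjTranspose_eq_transpose_of_trivial] at this

theorem pd_symm {A : Matrix N N ℝ} (hA : A.PosDef) : Aᵀ = A := psd_symm hA.posSemidef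

theorem pd_unit {A : Matrix N N ℝ} (hA : A.PosDef) : IsUnit A.det := by
  exact (hA.det_pos.ne').isUnit

/-- spectral theorem, real form -/
theorem spec {A : Matrix N N ℝ} (hA : A.IsHermitian) :
    ∃ V : Matrix N N ℝ, Vᵀ * V = 1 ∧ V * Vᵀ = 1 ∧ A = V * diagonal hA.eigenvalues * Vᵀ := by
  refine ⟨(hA.eigenvectorUnitary : Matrix N N ℝ), ?_, ?_, ?_⟩
  · have := Unitary.coe_star_mul_self hA.eigenvectorUnitary
    rwa [Matrix.star_eq_conjTranspose, conjTranspose_eq_transpose_of_trivial]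
      at this
  · have := Unitary.coe_mul_star_self hA.eigenvectorUnitary
    rwa [Unitary.coe_star, Matrix.star_eq_conjTranspose, conjTranspose_eq_transpose_of_trivial]
      at this
  · have := hA.spectral_theorem
    rwa [Unitary.conjStarAlgAut_apply, Matrix.star_eq_conjTranspose,
      conjTranspose_eq_transpose_of_trivial] at this

theorem one_le_det_one_add {P : Matrix N N ℝ} (hP : P.PosSemidef) : 1 ≤ (1 + P).det := by
  obtain ⟨V, hV1, hV2, hV3⟩ := spec hP.1
  have h1 : (1 + P) = V * diagonal (fun i => 1 + hP.1.eigenvalues i) * Vᵀ := by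
    have : diagonal (fun i => 1 + hP.1.eigenvalues i) = 1 + diagonal hP.1.eigenvalues := by
      rw [← diagonal_one, diagonal_add]
    rw [this, Matrix.mul_add, Matrix.add_mul, Matrix.mul_one, hV2, ← hV3]
  have h2 : V.det * Vᵀ.det = 1 := by rw [← det_mul, hV2, det_one]
  rw [h1, det_mul, det_mul, mul_right_comm, h2, one_mul, det_diagonal]
  have : ∏ i : N, (1 : ℝ) ≤ ∏ i, (1 + hP.1.eigenvalues i) :=
    Finset.prod_le_prod (fun _ _ => zero_le_one) fun i _ => by
      have := hP.eigenvalues_nonneg i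
      linarith
  simpa using this

/-- the positive square root -/
theorem exists_sqrt {A : Matrix N N ℝ} (hA : A.PosSemidef) :
    ∃ R : Matrix N N ℝ, R.PosSemidef ∧ R * R = A :=
  ⟨CFC.sqrt A, (CFC.sqrt_nonneg A).posSemidef, CFC.sqrt_mul_sqrt_self A hA.nonneg⟩

theorem sqrt_unique {R S : Matrix N N ℝ} (hR : R.PosSemidef) (hS : S.PosSemidef)
    (h : R * R = S * S) : R = S := by
  have h1 := CFC.sqrt_unique h hR.nonneg
  have h2 := CFC.sqrt_unique (rfl : S * S = S * S) hS.nonneg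
  rw [← h1, h2]

theorem exists_sqrt_pd {A : Matrix N N ℝ} (hA : A.PosDef) :
    ∃ R : Matrix N N ℝ, R.PosDef ∧ R * R = A := by
  obtain ⟨R, hR, hRR⟩ := exists_sqrt hA.posSemidef
  refine ⟨R, ?_, hRR⟩
  rw [hR.posDef_iff_det_ne_zero]
  intro h
  have := hA.det_pos
  rw [← hRR, det_mul, h] at this
  simp at this

theorem pd_conj {A : Matrix N N ℝ} (hA : A.PosDef) {B : Matrix N N ℝ} (hB : IsUnit B.det) :
    (Bᵀ * A * B).PosDef := by
  rw [(psd_conj hA.posSemidef B).posDef_iff_det_ne_zero, det_mul, det_mul, det_transpose]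
  have := hA.det_pos.ne'
  have := hB.ne_zero
  positivity

theorem det_mono {X Y : Matrix N N ℝ} (hX : X.PosDef) (hXY : (Y - X).PosSemidef) :
    X.det ≤ Y.det := by
  obtain ⟨R, hR, hRR⟩ := exists_sqrt_pd hX
  have hu := pd_unit hR
  have hRt : R⁻¹ᵀ = R⁻¹ := pd_symm hR.inv
  have h1 : Y = R * (1 + R⁻¹ᵀ * (Y - X) * R⁻¹) * R := by
    have e1 : R * R⁻¹ = 1 := Matrix.mul_nonsing_inv R hu
    have e2 : R⁻¹ * R = 1 := Matrix.nonsing_inv_mul R hu
    have e3 : R * (1 + R⁻¹ᵀ * (Y - X) * R⁻¹) * R =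
        R * R + (R * R⁻¹) * (Y - X) * (R⁻¹ * R) := by
      rw [hRt]
      simp only [Matrix.mul_add, Matrix.add_mul, Matrix.mul_one, Matrix.mul_assoc]
    rw [e3, e1, e2, hRR, Matrix.one_mul, Matrix.mul_one]
    abel
  have h2 := one_le_det_one_add (psd_conj hXY R⁻¹)
  have h3 : X.det = R.det * R.det := by rw [← hRR, det_mul]
  rw [h1, det_mul, det_mul, h3]
  have h4 := hR.det_pos
  have h5 : 0 < R.det * R.det := mul_pos h4 h4
  nlinarith

theorem inv_antitone {X Y : Matrix N N ℝ} (hX : X.PosDef) (hXY : (Y - X).PosSemidef) :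
    (X⁻¹ - Y⁻¹).PosSemidef := by
  have hY : Y.PosDef := by
    have := hX.add_posSemidef hXY
    rwa [add_sub_cancel] at this
  -- X⁻¹ - Y⁻¹ = Y⁻¹ (Y X⁻¹ Y - Y) Y⁻¹, and Y X⁻¹ Y - Y = (Y-X) X⁻¹ (Y-X) + (Y - X)
  have hXu := pd_unit hX
  have hYu := pd_unit hY
  have h1 : ((Y - X)ᵀ * X⁻¹ * (Y - X) + (Y - X)).PosSemidef :=
    (psd_conj hX.inv.posSemidef (Y - X)).add hXY
  have h2 := psd_conj h1 Y⁻¹
  have e1 : X * X⁻¹ = 1 := Matrix.mul_nonsing_inv X hXu
  have e2 : X⁻¹ * X = 1 := Matrix.nonsing_inv_mul X hXu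
  have e3 : Y * Y⁻¹ = 1 := Matrix.mul_nonsing_inv Y hYu
  have e4 : Y⁻¹ * Y = 1 := Matrix.nonsing_inv_mul Y hYu
  have h3 : (Y - X)ᵀ * X⁻¹ * (Y - X) + (Y - X) = Y * X⁻¹ * Y - Y := by
    rw [Matrix.transpose_sub, pd_symm hX, pd_symm hY]
    have : (Y - X) * X⁻¹ * (Y - X) = Y * X⁻¹ * Y - Y * (X⁻¹ * X) - (X * X⁻¹) * Y +
        (X * X⁻¹) * X := by
      noncomm_ring
    rw [this, e1, e2]
    simp only [Matrix.mul_one, Matrix.one_mul]
    abel
  rw [h3, pd_symm hY.inv] at h2
  have h4 : Y⁻¹ * (Y * X⁻¹ * Y - Y) * Y⁻¹ = X⁻¹ - Y⁻¹ := by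
    have : Y⁻¹ * (Y * X⁻¹ * Y - Y) * Y⁻¹ = (Y⁻¹ * Y) * X⁻¹ * (Y * Y⁻¹) - (Y⁻¹ * Y) * Y⁻¹ := by
      noncomm_ring
    rw [this, e3, e4]
    simp
  rwa [h4] at h2

/-! ### Geometric means -/

theorem exists_geo {A B : Matrix N N ℝ} (hA : A.PosDef) (hB : B.PosDef) :
    ∃ M : Matrix N N ℝ, M.PosDef ∧ M * A⁻¹ * M = B := by
  obtain ⟨R, hR, hRR⟩ := exists_sqrt_pd hA
  have hu := pd_unit hR
  have hRt : R⁻¹ᵀ = R⁻¹ := pd_symm hR.inv
  have hC : (R⁻¹ᵀ * B * R⁻¹).PosDef := pd_conj hB (pd_unit hR.inv)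
  obtain ⟨K, hK, hKK⟩ := exists_sqrt_pd hC
  refine ⟨Rᵀ * K * R, pd_conj hK hu, ?_⟩
  have e1 : R * R⁻¹ = 1 := Matrix.mul_nonsing_inv R hu
  have e2 : R⁻¹ * R = 1 := Matrix.nonsing_inv_mul R hu
  have e3 : A⁻¹ = R⁻¹ * R⁻¹ := by rw [← hRR, Matrix.mul_inv_rev]
  rw [e3, pd_symm hR]
  have : R * K * R * (R⁻¹ * R⁻¹) * (R * K * R) = R * K * (R * R⁻¹) * (R⁻¹ * R) * K * R := by
    noncomm_ring
  rw [this, e1, e2]
  have : R * K * 1 * 1 * K * R = R * (K * K) * R := by noncomm_ring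
  rw [this, hKK, hRt]
  have : R * (R⁻¹ * B * R⁻¹) * R = (R * R⁻¹) * B * (R⁻¹ * R) := by noncomm_ring
  rw [this, e1, e2]
  simp

theorem geo_unique {A M M' : Matrix N N ℝ} (hA : A.PosDef) (hM : M.PosSemidef)
    (hM' : M'.PosSemidef) (h : M * A⁻¹ * M = M' * A⁻¹ * M') : M = M' := by
  obtain ⟨R, hR, hRR⟩ := exists_sqrt_pd hA
  have hu := pd_unit hR
  have hRt : R⁻¹ᵀ = R⁻¹ := pd_symm hR.inv
  have e1 : R * R⁻¹ = 1 := Matrix.mul_nonsing_inv R hu
  have e2 : R⁻¹ * R = 1 := Matrix.nonsing_inv_mul R hu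
  have e3 : A⁻¹ = R⁻¹ * R⁻¹ := by rw [← hRR, Matrix.mul_inv_rev]
  have key : ∀ X : Matrix N N ℝ, (R⁻¹ᵀ * X * R⁻¹) * (R⁻¹ᵀ * X * R⁻¹) =
      R⁻¹ * (X * A⁻¹ * X) * R⁻¹ := by
    intro X
    rw [hRt, e3]
    noncomm_ring
  have h1 := sqrt_unique (psd_conj hM R⁻¹) (psd_conj hM' R⁻¹) (by rw [key, key, h])
  have h2 : ∀ X : Matrix N N ℝ, R * (R⁻¹ᵀ * X * R⁻¹) * R = X := by
    intro X
    rw [hRt]
    have : R * (R⁻¹ * X * R⁻¹) * R = (R * R⁻¹) * X * (R⁻¹ * R) := by noncomm_ring
    rw [this, e1, e2]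
    simp
  rw [← h2 M, h1, h2]

/-- the geometric mean is below the arithmetic mean -/
theorem geo_le {A M B : Matrix N N ℝ} (hA : A.PosDef) (hM : M.PosDef) (h : M * A⁻¹ * M = B) :
    ((1 / 2 : ℝ) • (A + B) - M).PosSemidef := by
  have hAu := pd_unit hA
  have e1 : A * A⁻¹ = 1 := Matrix.mul_nonsing_inv A hAu
  have e2 : A⁻¹ * A = 1 := Matrix.nonsing_inv_mul A hAu
  have h1 := psd_conj hA.inv.posSemidef (A - M)
  rw [Matrix.transpose_sub, pd_symm hA, pd_symm hM] at h1
  have h2 : (A - M) * A⁻¹ * (A - M) = A + B - (2 : ℝ) • M := by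
    have : (A - M) * A⁻¹ * (A - M) = (A * A⁻¹) * A - (A * A⁻¹) * M - M * (A⁻¹ * A) +
        M * A⁻¹ * M := by noncomm_ring
    rw [this, e1, e2, h, two_smul]
    simp only [Matrix.mul_one, Matrix.one_mul]
    abel
  rw [h2] at h1
  have h3 : (1 / 2 : ℝ) • (A + B) - M = (1 / 2 : ℝ) • (A + B - (2 : ℝ) • M) := by
    rw [smul_sub, smul_smul]
    norm_num
  rw [h3]
  exact h1.smul (by norm_num)

/-! ### The functional `L` -/

/-- The sum of `log⁺` over the spectrum. -/
noncomputable def L (A : Matrix N N ℝ) : ℝ := (A.charpoly.roots.map Real.posLog).sum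

theorem L_eq {A : Matrix N N ℝ} (hA : A.IsHermitian) :
    L A = ∑ i, Real.posLog (hA.eigenvalues i) := by
  unfold L
  rw [hA.roots_charpoly_eq_eigenvalues, Multiset.map_map]
  rfl

theorem L_nonneg (A : Matrix N N ℝ) : 0 ≤ L A := by
  unfold L
  apply Multiset.sum_nonneg
  intro x hx
  obtain ⟨y, _, rfl⟩ := Multiset.mem_map.1 hx
  exact Real.posLog_nonneg

theorem L_conj {A U V : Matrix N N ℝ} (h : V * U = 1) : L (U * A * V) = L A := by
  unfold L
  rw [Matrix.mul_assoc, Matrix.charpoly_mul_comm, Matrix.mul_assoc, h, Matrix.mul_one]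

theorem L_reindex (A : Matrix N N ℝ) (e : N ≃ T) : L (Matrix.reindex e e A) = L A := by
  unfold L
  rw [Matrix.charpoly_reindex]

theorem L_block (A : Matrix N N ℝ) (B : Matrix T T ℝ) : L (fromBlocks A 0 0 B) = L A + L B := by
  unfold L
  rw [Matrix.charpoly_fromBlocks_zero₁₂, Polynomial.roots_mul, Multiset.map_add, Multiset.sum_add]
  exact ((Matrix.charpoly_monic A).mul (Matrix.charpoly_monic B)).ne_zero

/-- compressions -/
theorem compress {A : Matrix N N ℝ} (hA : A.PosDef) {W : Matrix N T ℝ} (hW : Wᵀ * W = 1) :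
    0 < (Wᵀ * A * W).det ∧ Real.log (Wᵀ * A * W).det ≤ L A := by
  have hinj : Function.Injective W.mulVec := by
    intro x y hxy
    have : Wᵀ.mulVec (W.mulVec x) = Wᵀ.mulVec (W.mulVec y) := by rw [hxy]
    simpa [Matrix.mulVec_mulVec, hW] using this
  have hPD : (Wᵀ * A * W).PosDef := by
    have := hA.conjTranspose_mul_mul_same (B := W) hinj
    rwa [conjTranspose_eq_transpose_of_trivial] at this
  refine ⟨hPD.det_pos, ?_⟩
  obtain ⟨V, hV1, hV2, hV3⟩ := spec hA.1
  set lam := hA.1.eigenvalues with hlam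
  set E : N → ℝ := fun i => √(max (lam i) 1 - 1) with hE
  have hEE : diagonal E * diagonal E = diagonal (fun i => max (lam i) 1 - 1) := by
    rw [diagonal_mul_diagonal]
    congr 1
    funext i
    exact Real.mul_self_sqrt (by have := le_max_right (lam i) 1; linarith)
  set W' := Vᵀ * W with hW'
  have hW'1 : W'ᵀ * W' = 1 := by
    rw [hW', transpose_mul, transpose_transpose, Matrix.mul_assoc, ← Matrix.mul_assoc V, hV2,
      Matrix.one_mul, hW]
  have hmid : Wᵀ * A * W = W'ᵀ * diagonal lam * W' := by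
    rw [hW', transpose_mul, transpose_transpose]
    conv_lhs => rw [hV3]
    simp only [Matrix.mul_assoc]
  have h1 : (W'ᵀ * (diagonal fun i => max (lam i) 1) * W' - Wᵀ * A * W).PosSemidef := by
    have : W'ᵀ * (diagonal fun i => max (lam i) 1) * W' - Wᵀ * A * W =
        W'ᵀ * (diagonal fun i => max (lam i) 1 - lam i) * W' := by
      rw [hmid, ← Matrix.sub_mul, ← Matrix.mul_sub, diagonal_sub]
    rw [this]
    apply psd_conj
    rw [posSemidef_diagonal_iff]
    intro i
    have := le_max_left (lam i) 1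
    linarith
  have h2 := det_mono hPD h1
  have h3 : W'ᵀ * (diagonal fun i => max (lam i) 1) * W' =
      1 + (W'ᵀ * diagonal E) * (diagonal E * W') := by
    have : (diagonal fun i => max (lam i) 1) = 1 + diagonal E * diagonal E := by
      rw [hEE, ← diagonal_one, diagonal_add]
      congr 1
      funext i
      ring
    rw [this, Matrix.mul_add, Matrix.add_mul, Matrix.mul_one, hW'1]
    simp only [Matrix.mul_assoc]
  have h4 : (1 + (W'ᵀ * diagonal E) * (diagonal E * W')).det =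
      (1 + (diagonal E * W') * (W'ᵀ * diagonal E)).det := Matrix.det_one_add_mul_comm _ _
  have h5 : (1 - W' * W'ᵀ).PosSemidef := by
    have e : (1 - W' * W'ᵀ)ᵀ * (1 - W' * W'ᵀ) = 1 - W' * W'ᵀ := by
      rw [transpose_sub, transpose_one, transpose_mul, transpose_transpose]
      have : (1 - W' * W'ᵀ) * (1 - W' * W'ᵀ) = 1 - W' * W'ᵀ - W' * W'ᵀ +
          W' * (W'ᵀ * W') * W'ᵀ := by
        simp only [Matrix.mul_sub, Matrix.sub_mul, Matrix.mul_one, Matrix.one_mul,
          Matrix.mul_assoc]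
        abel
      rw [this, hW'1, Matrix.mul_one]
      abel
    rw [← e]
    exact psd_gram _
  have h6 : ((1 + diagonal E * diagonal E) -
      (1 + (diagonal E * W') * (W'ᵀ * diagonal E))).PosSemidef := by
    have e : (1 + diagonal E * diagonal E) - (1 + (diagonal E * W') * (W'ᵀ * diagonal E)) =
        (diagonal E)ᵀ * (1 - W' * W'ᵀ) * diagonal E := by
      rw [diagonal_transpose]
      simp only [Matrix.mul_sub, Matrix.sub_mul, Matrix.mul_one, Matrix.mul_assoc]
      abel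
    rw [e]
    exact psd_conj h5 _
  have h7 : (1 + (diagonal E * W') * (W'ᵀ * diagonal E)).PosDef := by
    apply Matrix.PosDef.one.add_posSemidef
    have e : (diagonal E * W') * (W'ᵀ * diagonal E) = (diagonal E * W') * (diagonal E * W')ᵀ := by
      rw [transpose_mul (diagonal E) W', diagonal_transpose]
    rw [e]
    exact psd_gram' _
  have h8 := det_mono h7 h6
  have h9 : (1 + diagonal E * diagonal E).det = ∏ i, max (lam i) 1 := by
    rw [hEE, ← diagonal_one, diagonal_add, det_diagonal]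
    refine Finset.prod_congr rfl fun i _ => ?_
    ring
  have h10 : (Wᵀ * A * W).det ≤ ∏ i, max (lam i) 1 := by
    rw [← h9]
    refine h2.trans ?_
    rw [h3, h4]
    exact h8
  have h11 : Real.log (∏ i, max (lam i) 1) = L A := by
    rw [L_eq hA.1, Real.log_prod]
    · refine Finset.sum_congr rfl fun i _ => ?_
      rw [← hlam, Real.posLog_eq_log_max_one (hA.eigenvalues_pos i).le, max_comm]
    · intro i _
      have := le_max_right (lam i) 1
      linarith
  rw [← h11]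
  exact Real.log_le_log hPD.det_pos h10

/-- the top compression -/
theorem exists_top {A : Matrix N N ℝ} (hA : A.PosDef) :
    ∃ (T : Finset N) (W : Matrix N T ℝ) (d : T → ℝ), Wᵀ * W = 1 ∧ A * W = W * diagonal d ∧
      (∀ i, 0 < d i) ∧ L A = Real.log (diagonal d).det := by
  obtain ⟨V, hV1, hV2, hV3⟩ := spec hA.1
  set lam := hA.1.eigenvalues with hlam
  set T : Finset N := univ.filter fun i => 1 < lam i with hT
  refine ⟨T, V.submatrix id Subtype.val, fun i => lam i, ?_, ?_, fun i => hA.eigenvalues_pos i, ?_⟩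
  · have : (V.submatrix id (Subtype.val : T → N))ᵀ * V.submatrix id (Subtype.val : T → N) =
        (Vᵀ * V).submatrix (Subtype.val : T → N) (Subtype.val : T → N) := by
      rw [transpose_submatrix, Matrix.submatrix_mul _ _ _ _ _ Function.bijective_id]
    rw [this, hV1]
    exact Matrix.submatrix_one _ Subtype.val_injective
  · have h1 : A * V = V * diagonal lam := by
      conv_lhs => rw [hV3]
      rw [Matrix.mul_assoc, hV1, Matrix.mul_one]
    ext i j
    have := congrFun (congrFun h1 i) j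
    rw [Matrix.mul_diagonal] at this
    rw [Matrix.mul_diagonal, Matrix.submatrix_apply, id]
    rw [← this, Matrix.mul_apply, Matrix.mul_apply]
    rfl
  · have h0 : Real.log (∏ i : T, lam i) = ∑ i : T, Real.log (lam i) :=
      Real.log_prod fun i _ => (hA.eigenvalues_pos (i : N)).ne'
    rw [L_eq hA.1, det_diagonal, h0]
    have h1 : ∑ i : T, Real.log (lam i) = ∑ i ∈ T, Real.log (lam i) :=
      Finset.sum_coe_sort T fun i => Real.log (lam i)
    rw [h1, hT, Finset.sum_filter]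
    refine Finset.sum_congr rfl fun i _ => ?_
    rw [← hlam]
    have hpos := hA.eigenvalues_pos i
    split_ifs with h
    · rw [Real.posLog_eq_log_max_one hpos.le, max_eq_right h.le]
    · rw [Real.posLog_eq_log_max_one hpos.le, max_eq_left (not_lt.1 h), Real.log_one]

theorem L_mono_smul {A B : Matrix N N ℝ} (hA : A.PosDef) (hB : B.PosDef) {c : ℝ} (hc : 1 ≤ c)
    (h : (c • B - A).PosSemidef) : L A ≤ L B + (Fintype.card N) * Real.log c := by
  obtain ⟨T, W, d, hW, hAW, hd, hL⟩ := exists_top hA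
  have h1 := compress hB hW
  have h2 := (compress hA hW).1
  have hWAW : Wᵀ * A * W = diagonal d := by
    rw [Matrix.mul_assoc, hAW, ← Matrix.mul_assoc, hW, Matrix.one_mul]
  have hPD : (Wᵀ * A * W).PosDef := by
    rw [hWAW]; exact Matrix.PosDef.diagonal hd
  have h3 : (c • (Wᵀ * B * W) - Wᵀ * A * W).PosSemidef := by
    have : c • (Wᵀ * B * W) - Wᵀ * A * W = Wᵀ * (c • B - A) * W := by
      rw [Matrix.mul_sub, Matrix.sub_mul, Matrix.mul_smul, Matrix.smul_mul]
    rw [this]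
    exact psd_conj h W
  have h4 := det_mono hPD h3
  rw [det_smul, hWAW] at h4
  rw [hL]
  have hc0 : 0 < c := by linarith
  calc Real.log (diagonal d).det ≤ Real.log (c ^ Fintype.card T * (Wᵀ * B * W).det) := by
        apply Real.log_le_log _ h4
        rw [← hWAW]; exact h2
    _ = (Fintype.card T) * Real.log c + Real.log (Wᵀ * B * W).det := by
        rw [Real.log_mul (by positivity) h1.1.ne', Real.log_pow]
    _ ≤ (Fintype.card N) * Real.log c + L B := by
        have : (Fintype.card T : ℝ) ≤ Fintype.card N := by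
          rw [Fintype.card_coe]
          exact_mod_cast Finset.card_le_univ T
        have h5 : (Fintype.card T : ℝ) * Real.log c ≤ (Fintype.card N) * Real.log c :=
          mul_le_mul_of_nonneg_right this (Real.log_nonneg hc)
        linarith [h1.2]
    _ = L B + (Fintype.card N) * Real.log c := by ring

/-- **The functional is midpoint convex along the geometric mean.** -/
theorem L_geo {A M B : Matrix N N ℝ} (hA : A.PosDef) (hM : M.PosDef) (hB : B.PosDef)
    (h : M * A⁻¹ * M = B) : 2 * L M ≤ L A + L B := by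
  obtain ⟨T, W, d, hW, hMW, hd, hL⟩ := exists_top hM
  have hWt : Wᵀ * M = diagonal d * Wᵀ := by
    have := congrArg Matrix.transpose hMW
    rwa [transpose_mul, transpose_mul, pd_symm hM, diagonal_transpose] at this
  have h1 : Wᵀ * B * W = diagonal d * (Wᵀ * A⁻¹ * W) * diagonal d := by
    rw [← h]
    calc Wᵀ * (M * A⁻¹ * M) * W = (Wᵀ * M) * A⁻¹ * (M * W) := by
          simp only [Matrix.mul_assoc]
      _ = _ := by rw [hWt, hMW]; simp only [Matrix.mul_assoc]
  have hBc := compress hB hW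
  have hAc := compress hA hW
  have hAic := compress hA.inv hW
  have hdd : 0 < (diagonal d).det := by
    rw [det_diagonal]; exact Finset.prod_pos fun i _ => hd i
  have h2 : (Wᵀ * B * W).det = (diagonal d).det ^ 2 * (Wᵀ * A⁻¹ * W).det := by
    rw [h1, det_mul, det_mul]; ring
  -- (WᵀAW)⁻¹ ≤ Wᵀ A⁻¹ W
  set X := Wᵀ * A * W with hX
  have hXPD : X.PosDef := by
    rw [(psd_conj hA.posSemidef W).posDef_iff_det_ne_zero]
    exact hAc.1.ne'
  have hXu := pd_unit hXPD
  have hAu := pd_unit hA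
  have e1 : A * A⁻¹ = 1 := Matrix.mul_nonsing_inv A hAu
  have e2 : A⁻¹ * A = 1 := Matrix.nonsing_inv_mul A hAu
  have e3 : X * X⁻¹ = 1 := Matrix.mul_nonsing_inv X hXu
  have h3 : (Wᵀ * A⁻¹ * W - X⁻¹).PosSemidef := by
    have h4 := psd_conj hA.posSemidef (A⁻¹ * W - W * X⁻¹)
    have e4 : (A⁻¹ * W - W * X⁻¹)ᵀ * A * (A⁻¹ * W - W * X⁻¹) = Wᵀ * A⁻¹ * W - X⁻¹ := by
      rw [transpose_sub, transpose_mul, transpose_mul, pd_symm hA.inv, pd_symm hXPD.inv]
      calc (Wᵀ * A⁻¹ - X⁻¹ * Wᵀ) * A * (A⁻¹ * W - W * X⁻¹)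
          = Wᵀ * (A⁻¹ * A) * A⁻¹ * W - Wᵀ * (A⁻¹ * A) * W * X⁻¹ - X⁻¹ * (Wᵀ * (A * A⁻¹) * W) +
            X⁻¹ * (Wᵀ * A * W * X⁻¹) := by
            simp only [Matrix.mul_sub, Matrix.sub_mul, Matrix.mul_assoc]
            abel
        _ = Wᵀ * A⁻¹ * W - X⁻¹ := by
            rw [e2, e1, ← hX, e3]
            simp only [Matrix.mul_one, hW, Matrix.one_mul]
            abel
    rwa [e4] at h4
  have h5 := det_mono hXPD.inv h3
  have h6 : Real.log (X⁻¹).det ≤ Real.log (Wᵀ * A⁻¹ * W).det :=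
    Real.log_le_log hXPD.inv.det_pos h5
  have h7 : Real.log (X⁻¹).det = - Real.log X.det := by
    rw [Matrix.det_nonsing_inv, Ring.inverse_eq_inv', Real.log_inv]
  have h8 : Real.log (Wᵀ * B * W).det =
      2 * Real.log (diagonal d).det + Real.log (Wᵀ * A⁻¹ * W).det := by
    rw [h2, Real.log_mul (by positivity) hAic.1.ne', Real.log_pow]
    norm_num
  rw [hL]
  linarith [hBc.2, hAc.2]

end Pool.Agent.X133.Sq
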