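import Pool.Agent.X133.Sq.Pure

set_option autoImplicit false
set_option linter.unusedSectionVars false

open Matrix Finset
open scoped MatrixOrder ComplexOrder

namespace Pool.Agent.X133.Sq

variable {N : Type*} [Fintype N] [DecidableEq N] {T : Type*} [Fintype T] [DecidableEq T]

/-- covariance matrices: real symmetric, `γ - iJ ≥ 0` -/
def Cov (J γ : Matrix N N ℝ) : Prop :=
  γ.IsSymm ∧ (γ.map (fun x : ℝ => (x : ℂ)) - Complex.I • J.map (fun x : ℝ => (x : ℂ))).PosSemidef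

theorem Cov.real {J γ : Matrix N N ℝ} (h : Cov J γ) (x y : N → ℝ) :
    0 ≤ x ⬝ᵥ (γ *ᵥ x) + y ⬝ᵥ (γ *ᵥ y) + x ⬝ᵥ (J *ᵥ y) - y ⬝ᵥ (J *ᵥ x) := by
  set v : N → ℂ := fun i => (x i : ℂ) + Complex.I * y i with hv
  have h1 := h.2.re_dotProduct_nonneg v
  have h2 : RCLike.re (star v ⬝ᵥ ((γ.map (fun x : ℝ => (x : ℂ)) -
      Complex.I • J.map (fun x : ℝ => (x : ℂ))) *ᵥ v)) =
      x ⬝ᵥ (γ *ᵥ x) + y ⬝ᵥ (γ *ᵥ y) + x ⬝ᵥ (J *ᵥ y) - y ⬝ᵥ (J *ᵥ x) := by
    simp only [dotProduct, mulVec, Finset.mul_sum, ← Finset.sum_add_distrib,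
      ← Finset.sum_sub_distrib]
    rw [map_sum]
    refine Finset.sum_congr rfl fun i _ => ?_
    rw [map_sum]
    refine Finset.sum_congr rfl fun j _ => ?_
    simp only [hv, Pi.star_apply, Matrix.sub_apply, Matrix.map_apply, Matrix.smul_apply,
      smul_eq_mul]
    simp
    ring
  rw [h2] at h1
  exact h1

theorem Cov.posDef {J γ : Matrix N N ℝ} (hJ : IsJ J) (h : Cov J γ) : γ.PosDef := by
  apply Matrix.PosDef.of_dotProduct_mulVec_pos
  · rw [Matrix.IsHermitian, conjTranspose_eq_transpose_of_trivial]; exact h.1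
  · intro x hx
    have h0 : 0 ≤ x ⬝ᵥ (γ *ᵥ x) := by
      have := h.real x 0
      simpa using this
    have hstar : star x = x := by ext i; simp
    rw [hstar]
    rcases h0.lt_or_eq with h1 | h1
    · exact h1
    exfalso
    set s := x ⬝ᵥ x with hs
    have hs0 : 0 < s := by
      have := dotProduct_star_self_pos_iff (v := x) |>.2 hx
      rwa [hstar] at this
    set q := (Jᵀ *ᵥ x) ⬝ᵥ (γ *ᵥ (Jᵀ *ᵥ x)) with hq
    have hq0 : 0 ≤ q := by
      have := h.real (Jᵀ *ᵥ x) 0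
      rw [Matrix.mulVec_zero, Matrix.mulVec_zero, zero_dotProduct, dotProduct_zero,
        zero_dotProduct, add_zero, add_zero, sub_zero] at this
      exact this
    have key : ∀ t : ℝ, 0 ≤ t ^ 2 * q - 2 * t * s := by
      intro t
      have h2 := h.real x (-(t • (Jᵀ *ᵥ x)))
      have e1 : x ⬝ᵥ (J *ᵥ (-(t • (Jᵀ *ᵥ x)))) = - (t * s) := by
        rw [Matrix.mulVec_neg, Matrix.mulVec_smul, Matrix.mulVec_mulVec, hJ.mul_t,
          Matrix.one_mulVec, dotProduct_neg, dotProduct_smul, smul_eq_mul]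
      have e2 : (-(t • (Jᵀ *ᵥ x))) ⬝ᵥ (J *ᵥ x) = t * s := by
        rw [hJ.1, Matrix.neg_mulVec, smul_neg, neg_neg, smul_dotProduct, smul_eq_mul]
        congr 1
        have : (J *ᵥ x) ⬝ᵥ (J *ᵥ x) = x ⬝ᵥ ((Jᵀ * J) *ᵥ x) := by
          rw [← Matrix.mulVec_mulVec, Matrix.dotProduct_mulVec x, Matrix.vecMul_transpose]
        rw [this, hJ.t_mul, Matrix.one_mulVec]
      have e3 : (-(t • (Jᵀ *ᵥ x))) ⬝ᵥ (γ *ᵥ (-(t • (Jᵀ *ᵥ x)))) = t ^ 2 * q := by
        rw [Matrix.mulVec_neg, Matrix.mulVec_smul, neg_dotProduct_neg, smul_dotProduct,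
          dotProduct_smul, smul_eq_mul, smul_eq_mul]
        ring
      rw [e1, e2, e3, ← h1] at h2
      linarith
    have h3 := key (s / (q + 1))
    have hq1 : 0 < q + 1 := by linarith
    have h4 : (s / (q + 1)) ^ 2 * q - 2 * (s / (q + 1)) * s =
        s ^ 2 / (q + 1) * (q / (q + 1) - 2) := by
      field_simp
    rw [h4] at h3
    have h5 : q / (q + 1) < 1 := by rw [div_lt_one hq1]; linarith
    have h6 : 0 < s ^ 2 / (q + 1) := by positivity
    nlinarith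

theorem Cov.dual_le {J γ : Matrix N N ℝ} (hJ : IsJ J) (h : Cov J γ) :
    (γ - Jᵀ * γ⁻¹ * J).PosSemidef := by
  have hPD := h.posDef hJ
  have hinv : γ * γ⁻¹ = 1 := Matrix.mul_nonsing_inv γ (pd_unit hPD)
  have hinv' : γ⁻¹ * γ = 1 := Matrix.nonsing_inv_mul γ (pd_unit hPD)
  apply Matrix.PosSemidef.of_dotProduct_mulVec_nonneg
  · rw [Matrix.IsHermitian, conjTranspose_eq_transpose_of_trivial, transpose_sub, transpose_mul,
      transpose_mul, transpose_transpose, pd_symm hPD, pd_symm hPD.inv, Matrix.mul_assoc]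
  · intro x
    have hstar : star x = x := by ext i; simp
    rw [hstar]
    set y : N → ℝ := -(γ⁻¹ *ᵥ (Jᵀ *ᵥ x)) with hy
    have h2 := h.real x y
    have e1 : x ⬝ᵥ (J *ᵥ y) = - (x ⬝ᵥ ((Jᵀ * γ⁻¹ * J) *ᵥ x)) := by
      have : Jᵀ * γ⁻¹ * J = J * γ⁻¹ * Jᵀ := by rw [hJ.1]; noncomm_ring
      rw [this, hy, Matrix.mulVec_neg, dotProduct_neg, Matrix.mulVec_mulVec,
        Matrix.mulVec_mulVec]
    have e2 : y ⬝ᵥ (J *ᵥ x) = x ⬝ᵥ ((Jᵀ * γ⁻¹ * J) *ᵥ x) := by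
      rw [hy, hJ.1, Matrix.neg_mulVec, Matrix.mulVec_neg, neg_neg, dotProduct_comm,
        Matrix.mulVec_mulVec, ← Matrix.vecMul_transpose, ← Matrix.dotProduct_mulVec, hJ.1,
        Matrix.mulVec_mulVec, Matrix.mul_assoc]
    have e3 : y ⬝ᵥ (γ *ᵥ y) = x ⬝ᵥ ((Jᵀ * γ⁻¹ * J) *ᵥ x) := by
      have h3 : γ *ᵥ y = J *ᵥ x := by
        rw [hy, Matrix.mulVec_neg, Matrix.mulVec_mulVec, hinv, Matrix.one_mulVec, hJ.1,
          Matrix.neg_mulVec, neg_neg]
      rw [h3, e2]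
    rw [e1, e2, e3] at h2
    rw [Matrix.sub_mulVec, dotProduct_sub]
    linarith

/-- Every covariance matrix dominates a pure one. -/
theorem Cov.exists_pure {J γ : Matrix N N ℝ} (hJ : IsJ J) (h : Cov J γ) :
    ∃ A, Pure J A ∧ (γ - A).PosSemidef := by
  have hPD := h.posDef hJ
  obtain ⟨M, hM, hMM⟩ := exists_geo hPD (dual_pd hJ hPD)
  refine ⟨M, geo_self_pure hJ hPD hM hMM, ?_⟩
  have h1 := geo_le hPD hM hMM
  have h2 := (h.dual_le hJ).smul (show (0 : ℝ) ≤ 1 / 2 by norm_num)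
  have h3 := h1.add h2
  have h4 : (1 / 2 : ℝ) • (γ + Jᵀ * γ⁻¹ * J) - M + (1 / 2 : ℝ) • (γ - Jᵀ * γ⁻¹ * J) = γ - M := by
    rw [smul_add, smul_sub]
    have : γ = (1 / 2 : ℝ) • γ + (1 / 2 : ℝ) • γ := by
      rw [← add_smul]; norm_num
    nth_rewrite 5 [this]
    abel
  rwa [h4] at h3

/-- the squeezing measure, through pure matrices -/
noncomputable def GG (J γ : Matrix N N ℝ) : ℝ :=
  sInf {x : ℝ | ∃ A, Pure J A ∧ (γ - A).PosSemidef ∧ x = L A / 2}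

theorem bddBelow_GG (J γ : Matrix N N ℝ) :
    BddBelow {x : ℝ | ∃ A, Pure J A ∧ (γ - A).PosSemidef ∧ x = L A / 2} := by
  refine ⟨0, ?_⟩
  rintro x ⟨A, _, _, rfl⟩
  have := L_nonneg A
  positivity

theorem Cov.nonempty_GG {J γ : Matrix N N ℝ} (hJ : IsJ J) (h : Cov J γ) :
    {x : ℝ | ∃ A, Pure J A ∧ (γ - A).PosSemidef ∧ x = L A / 2}.Nonempty := by
  obtain ⟨A, hA, hA'⟩ := h.exists_pure hJ
  exact ⟨_, A, hA, hA', rfl⟩

theorem isJ_block {J₁ : Matrix N N ℝ} {J₂ : Matrix T T ℝ} (h₁ : IsJ J₁) (h₂ : IsJ J₂) :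
    IsJ (fromBlocks J₁ 0 0 J₂) := by
  constructor
  · rw [fromBlocks_transpose, h₁.1, h₂.1, fromBlocks_neg]
    simp
  · rw [fromBlocks_multiply, h₁.2, h₂.2]
    simp only [Matrix.mul_zero, Matrix.zero_mul, add_zero, zero_add]
    rw [← fromBlocks_one, fromBlocks_neg, neg_zero, neg_zero]

theorem psd_block {A : Matrix N N ℝ} {B : Matrix T T ℝ} (hA : A.PosSemidef)
    (hB : B.PosSemidef) : (fromBlocks A 0 0 B).PosSemidef := by
  obtain ⟨R, hR, hRR⟩ := exists_sqrt hA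
  obtain ⟨S, hS, hSS⟩ := exists_sqrt hB
  have h1 : fromBlocks A 0 0 B = (fromBlocks R 0 0 S)ᵀ * fromBlocks R 0 0 S := by
    rw [fromBlocks_transpose, fromBlocks_multiply, psd_symm hR, psd_symm hS, hRR, hSS]
    simp
  rw [h1]
  exact psd_gram _

theorem pd_block {A : Matrix N N ℝ} {B : Matrix T T ℝ} (hA : A.PosDef) (hB : B.PosDef) :
    (fromBlocks A 0 0 B).PosDef := by
  rw [(psd_block hA.posSemidef hB.posSemidef).posDef_iff_det_ne_zero,
    Matrix.det_fromBlocks_zero₁₂]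
  exact mul_ne_zero hA.det_pos.ne' hB.det_pos.ne'

theorem pure_block {J₁ A : Matrix N N ℝ} {J₂ B : Matrix T T ℝ} (hA : Pure J₁ A)
    (hB : Pure J₂ B) : Pure (fromBlocks J₁ 0 0 J₂) (fromBlocks A 0 0 B) := by
  refine ⟨pd_block hA.1 hB.1, ?_⟩
  rw [fromBlocks_multiply, fromBlocks_multiply]
  simp only [Matrix.mul_zero, Matrix.zero_mul, add_zero, zero_add, hA.2, hB.2]

/-- **The block decomposition**: a pure matrix below `γ₁ ⊕ γ₂` can be replaced by a block diagonal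
one, without increasing `L`. -/
theorem exists_block {J₁ γ₁ : Matrix N N ℝ} {J₂ γ₂ : Matrix T T ℝ} (h₁ : IsJ J₁) (h₂ : IsJ J₂)
    {A : Matrix (N ⊕ T) (N ⊕ T) ℝ} (hA : Pure (fromBlocks J₁ 0 0 J₂) A)
    (hle : (fromBlocks γ₁ 0 0 γ₂ - A).PosSemidef) :
    ∃ A₁ A₂, Pure J₁ A₁ ∧ Pure J₂ A₂ ∧ (γ₁ - A₁).PosSemidef ∧ (γ₂ - A₂).PosSemidef ∧
      L A₁ + L A₂ ≤ L A := by
  have hJ := isJ_block h₁ h₂
  set J := fromBlocks J₁ 0 0 J₂ with hJdef
  set U : Matrix (N ⊕ T) (N ⊕ T) ℝ := fromBlocks 1 0 0 (-1) with hU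
  have hUt : Uᵀ = U := by
    rw [hU, fromBlocks_transpose]; simp
  have hUU : U * U = 1 := by
    rw [hU, fromBlocks_multiply]; simp
  have hUblock : ∀ (a : Matrix N N ℝ) (b : Matrix N T ℝ) (c : Matrix T N ℝ) (d : Matrix T T ℝ),
      U * fromBlocks a b c d * U = fromBlocks a (-b) (-c) d := by
    intro a b c d
    rw [hU, fromBlocks_multiply, fromBlocks_multiply]
    simp
  have hUJ : U * J * U = J := by rw [hJdef, hUblock]; simp
  have hdetU : IsUnit U.det := by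
    have := congrArg Matrix.det hUU
    rw [det_mul, det_one] at this
    exact IsUnit.of_mul_eq_one _ this
  set B := U * A * U with hB
  have hBpure : Pure J B := by
    refine ⟨?_, ?_⟩
    · have := pd_conj hA.1 hdetU
      rwa [hUt] at this
    · have e1 : B * J * B = U * (A * (U * J * U) * A) * U := by
        rw [hB]; simp only [Matrix.mul_assoc]
      rw [e1, hUJ, hA.2, hUJ]
  obtain ⟨M, hM, hMM⟩ := exists_geo hA.1 hBpure.1
  have hMpure : Pure J M := geo_pure hJ hA hM hBpure hMM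
  have hUMU : U * M * U = M := by
    have hPD : (U * M * U).PosDef := by
      have := pd_conj hM hdetU
      rwa [hUt] at this
    apply geo_unique hA.1 hPD.posSemidef hM.posSemidef
    rw [hMM]
    have hBinv : B⁻¹ = U * A⁻¹ * U := by
      apply Matrix.inv_eq_right_inv
      have : B * (U * A⁻¹ * U) = U * (A * (U * U) * A⁻¹) * U := by
        rw [hB]; simp only [Matrix.mul_assoc]
      rw [this, hUU, Matrix.mul_one, Matrix.mul_nonsing_inv _ (pd_unit hA.1), Matrix.mul_one, hUU]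
    have h3 := geo_symm hA.1 hM hMM
    have e1 : U * M * U * A⁻¹ * (U * M * U) = U * (M * (U * A⁻¹ * U) * M) * U := by
      simp only [Matrix.mul_assoc]
    rw [e1, ← hBinv, h3]
  have hγ : U * fromBlocks γ₁ 0 0 γ₂ * U = fromBlocks γ₁ 0 0 γ₂ := by
    rw [hUblock]; simp
  have hleM : (fromBlocks γ₁ 0 0 γ₂ - M).PosSemidef := by
    have e1 := geo_le hA.1 hM hMM
    have e2 := hle.smul (show (0 : ℝ) ≤ 1 / 2 by norm_num)
    have e3 : (fromBlocks γ₁ 0 0 γ₂ - B).PosSemidef := by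
      have := psd_conj hle U
      rw [hUt, Matrix.mul_sub, Matrix.sub_mul, hγ] at this
      exact this
    have e4 := e3.smul (show (0 : ℝ) ≤ 1 / 2 by norm_num)
    have e5 := (e1.add e2).add e4
    have e6 : (1 / 2 : ℝ) • (A + B) - M + (1 / 2 : ℝ) • (fromBlocks γ₁ 0 0 γ₂ - A) +
        (1 / 2 : ℝ) • (fromBlocks γ₁ 0 0 γ₂ - B) = fromBlocks γ₁ 0 0 γ₂ - M := by
      have : fromBlocks γ₁ 0 0 γ₂ = (1 / 2 : ℝ) • fromBlocks γ₁ 0 0 γ₂ +
          (1 / 2 : ℝ) • fromBlocks γ₁ 0 0 γ₂ := by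
        rw [← add_smul]; norm_num
      rw [smul_add, smul_sub, smul_sub]
      nth_rewrite 3 [this]
      abel
    rwa [e6] at e5
  -- the blocks of M
  set A₁ := M.toBlocks₁₁ with hA₁
  set A₂ := M.toBlocks₂₂ with hA₂
  have hMb : M = fromBlocks A₁ 0 0 A₂ := by
    have e1 : M = fromBlocks A₁ M.toBlocks₁₂ M.toBlocks₂₁ A₂ := (fromBlocks_toBlocks M).symm
    have e2 := hUMU
    rw [e1, hUblock, fromBlocks_inj] at e2
    obtain ⟨_, e3, e4, _⟩ := e2
    have e5 : M.toBlocks₁₂ = 0 := by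
      have h : ∀ i j, M.toBlocks₁₂ i j = 0 := by
        intro i j
        have := congrFun (congrFun e3 i) j
        rw [Matrix.neg_apply] at this
        linarith
      ext i j; exact h i j
    have e6 : M.toBlocks₂₁ = 0 := by
      have h : ∀ i j, M.toBlocks₂₁ i j = 0 := by
        intro i j
        have := congrFun (congrFun e4 i) j
        rw [Matrix.neg_apply] at this
        linarith
      ext i j; exact h i j
    rw [e1, e5, e6]
  have hMJ := hMpure.2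
  rw [hMb, hJdef, fromBlocks_multiply, fromBlocks_multiply] at hMJ
  simp only [Matrix.mul_zero, Matrix.zero_mul, add_zero, zero_add, fromBlocks_inj] at hMJ
  have hPD₁ : A₁.PosDef := hM.submatrix Sum.inl_injective
  have hPD₂ : A₂.PosDef := hM.submatrix Sum.inr_injective
  refine ⟨A₁, A₂, ⟨hPD₁, hMJ.1⟩, ⟨hPD₂, hMJ.2.2.2⟩, ?_, ?_, ?_⟩
  · have := hleM.submatrix (Sum.inl : N → N ⊕ T)
    rw [hMb] at this
    convert this using 1
    ext i j
    simp
  · have := hleM.submatrix (Sum.inr : T → N ⊕ T)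
    rw [hMb] at this
    convert this using 1
    ext i j
    simp
  · have e1 := L_geo hA.1 hM hBpure.1 hMM
    have e2 : L B = L A := L_conj hUU
    have e3 : L M = L A₁ + L A₂ := by rw [hMb, L_block]
    linarith

/-- **Additivity.** -/
theorem GG_add {J₁ γ₁ : Matrix N N ℝ} {J₂ γ₂ : Matrix T T ℝ} (h₁ : IsJ J₁) (h₂ : IsJ J₂)
    (hγ₁ : Cov J₁ γ₁) (hγ₂ : Cov J₂ γ₂) :
    GG (fromBlocks J₁ 0 0 J₂) (fromBlocks γ₁ 0 0 γ₂) = GG J₁ γ₁ + GG J₂ γ₂ := by
  apply le_antisymm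
  · -- subadditivity
    have key : ∀ x ∈ {x : ℝ | ∃ A, Pure J₁ A ∧ (γ₁ - A).PosSemidef ∧ x = L A / 2},
        ∀ y ∈ {x : ℝ | ∃ A, Pure J₂ A ∧ (γ₂ - A).PosSemidef ∧ x = L A / 2},
        GG (fromBlocks J₁ 0 0 J₂) (fromBlocks γ₁ 0 0 γ₂) ≤ x + y := by
      rintro x ⟨A, hA, hA', rfl⟩ y ⟨B, hB, hB', rfl⟩
      apply csInf_le (bddBelow_GG _ _)
      refine ⟨fromBlocks A 0 0 B, pure_block hA hB, ?_, ?_⟩
      · have : fromBlocks γ₁ 0 0 γ₂ - fromBlocks A 0 0 B = fromBlocks (γ₁ - A) 0 0 (γ₂ - B) := by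
          rw [sub_eq_add_neg, fromBlocks_neg, fromBlocks_add]
          simp [sub_eq_add_neg]
        rw [this]
        exact psd_block hA' hB'
      · rw [L_block]; ring
    have h3 : ∀ x ∈ {x : ℝ | ∃ A, Pure J₁ A ∧ (γ₁ - A).PosSemidef ∧ x = L A / 2},
        GG (fromBlocks J₁ 0 0 J₂) (fromBlocks γ₁ 0 0 γ₂) - x ≤ GG J₂ γ₂ := by
      intro x hx
      apply le_csInf (hγ₂.nonempty_GG h₂)
      intro y hy
      have := key x hx y hy
      linarith
    have h4 : GG (fromBlocks J₁ 0 0 J₂) (fromBlocks γ₁ 0 0 γ₂) - GG J₂ γ₂ ≤ GG J₁ γ₁ := by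
      apply le_csInf (hγ₁.nonempty_GG h₁)
      intro x hx
      have := h3 x hx
      linarith
    linarith
  · apply le_csInf
    · obtain ⟨A, hA, hA'⟩ := hγ₁.exists_pure h₁
      obtain ⟨B, hB, hB'⟩ := hγ₂.exists_pure h₂
      refine ⟨_, fromBlocks A 0 0 B, pure_block hA hB, ?_, rfl⟩
      have : fromBlocks γ₁ 0 0 γ₂ - fromBlocks A 0 0 B = fromBlocks (γ₁ - A) 0 0 (γ₂ - B) := by
        rw [sub_eq_add_neg, fromBlocks_neg, fromBlocks_add]
        simp [sub_eq_add_neg]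
      rw [this]
      exact psd_block hA' hB'
    · rintro x ⟨A, hA, hA', rfl⟩
      obtain ⟨A₁, A₂, hp₁, hp₂, hl₁, hl₂, hL⟩ := exists_block h₁ h₂ hA hA'
      have e1 : GG J₁ γ₁ ≤ L A₁ / 2 := csInf_le (bddBelow_GG _ _) ⟨A₁, hp₁, hl₁, rfl⟩
      have e2 : GG J₂ γ₂ ≤ L A₂ / 2 := csInf_le (bddBelow_GG _ _) ⟨A₂, hp₂, hl₂, rfl⟩
      linarith

end Pool.Agent.X133.Sq
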