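import Pool.Agent.X133.Sq.Defs
import Pool.Agent.X133.Sq.Cov

set_option autoImplicit false
set_option linter.unusedSectionVars false

open Matrix Finset
open scoped MatrixOrder ComplexOrder

namespace Pool.Agent.X133.Sq

theorem isJ_sigma (n : ℕ) : IsJ (sigma n) := by
  constructor
  · ext ⟨i, a⟩ ⟨j, b⟩
    simp only [sigma, Matrix.transpose_apply, Matrix.of_apply, Matrix.neg_apply]
    by_cases h : i = j
    · subst h
      fin_cases a <;> fin_cases b <;> simp
    · rw [if_neg (fun h' => h h'.symm), if_neg h, neg_zero]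
  · ext ⟨i, a⟩ ⟨j, b⟩
    rw [Matrix.mul_apply, Fintype.sum_prod_type]
    rw [Finset.sum_eq_single i]
    · by_cases h : i = j
      · subst h
        fin_cases a <;> fin_cases b <;> simp [sigma]
      · have : (i, a) ≠ (j, b) := fun h' => h (Prod.ext_iff.1 h').1
        simp [sigma, h, this]
    · intro k _ hk
      refine Finset.sum_eq_zero fun b' _ => ?_
      have : sigma n (i, a) (k, b') = 0 := by
        simp [sigma, Ne.symm hk]
      rw [this, zero_mul]
    · intro h
      exact absurd (Finset.mem_univ i) h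

theorem card_quad (n : ℕ) : Fintype.card (Quad n) = 2 * n := by
  simp [Quad, mul_comm]

theorem costs_eq {n : ℕ} (γ : Matrix (Quad n) (Quad n) ℝ) :
    costs γ = {x : ℝ | ∃ A, Pure (sigma n) A ∧ (γ - A).PosSemidef ∧ x = L A / 2} := by
  ext x
  constructor
  · rintro ⟨S, hS, hle, rfl⟩
    have hS' : Symp (sigma n) S := hS
    exact ⟨Sᵀ * S, hS'.pure (isJ_sigma n), hle,
      sum_log_singularValues (isJ_sigma n) hS' (card_quad n)⟩
  · rintro ⟨A, hA, hle, rfl⟩
    obtain ⟨S, hS, rfl⟩ := hA.exists_symp (isJ_sigma n)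
    exact ⟨S, hS, hle, (sum_log_singularValues (isJ_sigma n) hS (card_quad n)).symm⟩

theorem G_eq {n : ℕ} (γ : Matrix (Quad n) (Quad n) ℝ) : G γ = GG (sigma n) γ := by
  unfold G GG
  rw [costs_eq]

theorem cov_iff {n : ℕ} (γ : Matrix (Quad n) (Quad n) ℝ) : IsCovariance γ ↔ Cov (sigma n) γ :=
  Iff.rfl

theorem directSum_sigma (n₁ n₂ : ℕ) : directSum (sigma n₁) (sigma n₂) = sigma (n₁ + n₂) := by
  unfold directSum
  rw [← Equiv.eq_symm_apply]
  ext p q
  rw [Matrix.reindex_symm, Matrix.reindex_apply, Matrix.submatrix_apply]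
  rcases p with ⟨i, a⟩ | ⟨i, a⟩ <;> rcases q with ⟨j, b⟩ | ⟨j, b⟩ <;>
    simp [quadEquiv, sigma, Fin.ext_iff]
  · intro h
    have := i.isLt
    omega
  · intro h
    have := j.isLt
    omega

section

variable {N : Type*} [Fintype N] [DecidableEq N] {T : Type*} [Fintype T] [DecidableEq T]

theorem pure_reindex (e : N ≃ T) {J A : Matrix N N ℝ} (h : Pure J A) :
    Pure (Matrix.reindex e e J) (Matrix.reindex e e A) := by
  refine ⟨?_, ?_⟩
  · rw [Matrix.reindex_apply]
    exact h.1.submatrix e.symm.injective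
  · rw [Matrix.reindex_apply, Matrix.reindex_apply, Matrix.submatrix_mul_equiv,
      Matrix.submatrix_mul_equiv, h.2]

theorem GG_reindex_le (e : N ≃ T) {J γ : Matrix N N ℝ}
    (hne : {x : ℝ | ∃ A, Pure J A ∧ (γ - A).PosSemidef ∧ x = L A / 2}.Nonempty) :
    GG (Matrix.reindex e e J) (Matrix.reindex e e γ) ≤ GG J γ := by
  apply le_csInf hne
  rintro x ⟨A, hA, hle, rfl⟩
  apply csInf_le (bddBelow_GG _ _)
  refine ⟨Matrix.reindex e e A, pure_reindex e hA, ?_, ?_⟩
  · have : Matrix.reindex e e γ - Matrix.reindex e e A = (γ - A).submatrix e.symm e.symm := by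
      ext i j; simp
    rw [this]
    exact hle.submatrix _
  · rw [L_reindex]

theorem GG_reindex (e : N ≃ T) {J γ : Matrix N N ℝ}
    (hne : {x : ℝ | ∃ A, Pure J A ∧ (γ - A).PosSemidef ∧ x = L A / 2}.Nonempty) :
    GG (Matrix.reindex e e J) (Matrix.reindex e e γ) = GG J γ := by
  apply le_antisymm (GG_reindex_le e hne)
  have hne' : {x : ℝ | ∃ A, Pure (Matrix.reindex e e J) A ∧
      (Matrix.reindex e e γ - A).PosSemidef ∧ x = L A / 2}.Nonempty := by
    obtain ⟨x, A, hA, hle, _⟩ := hne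
    refine ⟨_, Matrix.reindex e e A, pure_reindex e hA, ?_, rfl⟩
    have : Matrix.reindex e e γ - Matrix.reindex e e A = (γ - A).submatrix e.symm e.symm := by
      ext i j; simp
    rw [this]
    exact hle.submatrix _
  have h := GG_reindex_le e.symm hne'
  have e1 : ∀ X : Matrix N N ℝ, Matrix.reindex e.symm e.symm (Matrix.reindex e e X) = X := by
    intro X
    ext i j; simp
  rwa [e1, e1] at h

end

theorem nonempty_costs {n : ℕ} {γ : Matrix (Quad n) (Quad n) ℝ} (h : IsCovariance γ) :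
    (costs γ).Nonempty := by
  rw [costs_eq]
  exact Cov.nonempty_GG (isJ_sigma n) h

theorem bddBelow_costs {n : ℕ} (γ : Matrix (Quad n) (Quad n) ℝ) : BddBelow (costs γ) := by
  rw [costs_eq]
  exact bddBelow_GG _ _

theorem G_directSum {n₁ n₂ : ℕ} {γA : Matrix (Quad n₁) (Quad n₁) ℝ}
    {γB : Matrix (Quad n₂) (Quad n₂) ℝ} (hA : IsCovariance γA) (hB : IsCovariance γB) :
    G (directSum γA γB) = G γA + G γB := by
  rw [G_eq, G_eq, G_eq, ← GG_add (isJ_sigma n₁) (isJ_sigma n₂) hA hB, ← directSum_sigma]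
  apply GG_reindex
  obtain ⟨A, hA1, hA2⟩ := Cov.exists_pure (isJ_sigma n₁) hA
  obtain ⟨B, hB1, hB2⟩ := Cov.exists_pure (isJ_sigma n₂) hB
  refine ⟨_, fromBlocks A 0 0 B, pure_block hA1 hB1, ?_, rfl⟩
  have : fromBlocks γA 0 0 γB - fromBlocks A 0 0 B = fromBlocks (γA - A) 0 0 (γB - B) := by
    rw [sub_eq_add_neg, fromBlocks_neg, fromBlocks_add]
    simp [sub_eq_add_neg]
  rw [this]
  exact psd_block hA2 hB2

theorem psd_block_complex {N T : Type*} [Fintype N] [DecidableEq N] [Fintype T] [DecidableEq T]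
    {A : Matrix N N ℂ} {B : Matrix T T ℂ} (hA : A.PosSemidef) (hB : B.PosSemidef) :
    (fromBlocks A 0 0 B).PosSemidef := by
  obtain ⟨C, rfl⟩ := CStarAlgebra.nonneg_iff_eq_star_mul_self.mp hA.nonneg
  obtain ⟨D, rfl⟩ := CStarAlgebra.nonneg_iff_eq_star_mul_self.mp hB.nonneg
  have : fromBlocks (star C * C) 0 0 (star D * D) =
      (fromBlocks C 0 0 D)ᴴ * fromBlocks C 0 0 D := by
    rw [fromBlocks_conjTranspose, fromBlocks_multiply]
    simp [Matrix.star_eq_conjTranspose]
  rw [this]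
  exact posSemidef_conjTranspose_mul_self _

theorem isCovariance_directSum {n₁ n₂ : ℕ} {γA : Matrix (Quad n₁) (Quad n₁) ℝ}
    {γB : Matrix (Quad n₂) (Quad n₂) ℝ} (hA : IsCovariance γA) (hB : IsCovariance γB) :
    IsCovariance (directSum γA γB) := by
  refine ⟨?_, ?_⟩
  · unfold directSum
    rw [Matrix.IsSymm, Matrix.transpose_reindex, fromBlocks_transpose, hA.1, hB.1]
    simp
  · rw [← directSum_sigma]
    have h := (psd_block_complex hA.2 hB.2).submatrix (quadEquiv n₁ n₂).symm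
    convert h using 1
    ext p q
    obtain ⟨p', rfl⟩ := (quadEquiv n₁ n₂).surjective p
    obtain ⟨q', rfl⟩ := (quadEquiv n₁ n₂).surjective q
    rcases p' with p' | p' <;> rcases q' with q' | q' <;> simp [directSum]

end Pool.Agent.X133.Sq
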