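import Pool.Agent.X133.Sq.Cov

set_option autoImplicit false
set_option linter.unusedSectionVars false

open Matrix Finset Filter Topology
open scoped MatrixOrder ComplexOrder

namespace Pool.Agent.X133.Sq

variable {N : Type*} [Fintype N] [DecidableEq N]

/-! ### Limits along ultrafilters -/

theorem isCompact_box (c : ℝ) : IsCompact {M : Matrix N N ℝ | ∀ i j, |M i j| ≤ c} := by
  have hK : IsCompact (Set.pi Set.univ fun _ : N => Set.pi Set.univ fun _ : N => Set.Icc (-c) c) :=
    isCompact_univ_pi fun _ => isCompact_univ_pi fun _ => isCompact_Icc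
  have h : {M : Matrix N N ℝ | ∀ i j, |M i j| ≤ c} =
      (Set.pi Set.univ fun _ : N => Set.pi Set.univ fun _ : N => Set.Icc (-c) c) := by
    ext M
    constructor
    · intro h i _ j _
      exact abs_le.1 (h i j)
    · intro h i j
      exact abs_le.2 (h i trivial j trivial)
  rw [h]
  exact hK

theorem conv_of_bdd {α : Type*} (U : Ultrafilter α) (f : α → Matrix N N ℝ) (c : ℝ)
    (h : ∀ᶠ a in (U : Filter α), ∀ i j, |f a i j| ≤ c) :
    ∃ M : Matrix N N ℝ, Tendsto f U (𝓝 M) := by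
  have hK := isCompact_box (N := N) c
  rw [isCompact_iff_ultrafilter_le_nhds] at hK
  obtain ⟨M, _, hM⟩ := hK (U.map f) (by
    rw [le_principal_iff, Ultrafilter.coe_map, Filter.mem_map]
    exact h)
  exact ⟨M, hM⟩

theorem psd_lim {α : Type*} {U : Filter α} [U.NeBot] {f : α → Matrix N N ℝ} {M : Matrix N N ℝ}
    (hf : Tendsto f U (𝓝 M)) (h : ∀ᶠ a in U, (f a).PosSemidef) : M.PosSemidef := by
  apply Matrix.PosSemidef.of_dotProduct_mulVec_nonneg
  · rw [Matrix.IsHermitian, conjTranspose_eq_transpose_of_trivial]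
    have h1 : Tendsto (fun a => (f a)ᵀ) U (𝓝 Mᵀ) :=
      (continuous_id.matrix_transpose.tendsto M).comp hf
    have h2 : Tendsto (fun a => (f a)ᵀ) U (𝓝 M) := by
      apply hf.congr'
      filter_upwards [h] with a ha
      exact (psd_symm ha).symm
    exact tendsto_nhds_unique h1 h2
  · intro x
    have h1 : Tendsto (fun a => star x ⬝ᵥ (f a *ᵥ x)) U (𝓝 (star x ⬝ᵥ (M *ᵥ x))) := by
      have hc : Continuous fun M : Matrix N N ℝ => star x ⬝ᵥ (M *ᵥ x) :=
        continuous_const.dotProduct (continuous_id.matrix_mulVec continuous_const)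
      exact (hc.tendsto M).comp hf
    apply ge_of_tendsto h1
    filter_upwards [h] with a ha
    exact ha.dotProduct_mulVec_nonneg x

theorem exists_lower {M : Matrix N N ℝ} (h : M.PosDef) :
    ∃ m : ℝ, 0 < m ∧ (M - m • (1 : Matrix N N ℝ)).PosSemidef := by
  obtain ⟨V, hV1, hV2, hV3⟩ := spec h.1
  obtain ⟨m, hm, hm'⟩ : ∃ m : ℝ, 0 < m ∧ ∀ i, m ≤ h.1.eigenvalues i := by
    rcases isEmpty_or_nonempty N with hN | hN
    · exact ⟨1, one_pos, fun i => (hN.false i).elim⟩
    · obtain ⟨i, hi⟩ := Finite.exists_min h.1.eigenvalues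
      exact ⟨_, h.eigenvalues_pos i, hi⟩
  refine ⟨m, hm, ?_⟩
  have : M - m • (1 : Matrix N N ℝ) = Vᵀᵀ * diagonal (fun i => h.1.eigenvalues i - m) * Vᵀ := by
    have e1 : diagonal (fun i => h.1.eigenvalues i - m) =
        diagonal h.1.eigenvalues - m • (1 : Matrix N N ℝ) := by
      rw [← diagonal_one, ← diagonal_smul, diagonal_sub]
      congr 1
      funext i
      simp
    rw [transpose_transpose, e1, Matrix.mul_sub, Matrix.sub_mul, ← hV3, Matrix.mul_smul,
      Matrix.smul_mul, Matrix.mul_one, hV2]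
  rw [this]
  apply psd_conj
  rw [posSemidef_diagonal_iff]
  intro i
  have := hm' i
  linarith

theorem psd_of_near {M₀ : Matrix N N ℝ} (h : M₀.PosDef) :
    ∃ η : ℝ, 0 < η ∧ ∀ M : Matrix N N ℝ, Mᵀ = M → (∀ i j, |M i j - M₀ i j| ≤ η) →
      M.PosSemidef := by
  obtain ⟨m, hm, hm'⟩ := exists_lower h
  refine ⟨m / (Fintype.card N + 1), by positivity, ?_⟩
  intro M hM hclose
  apply Matrix.PosSemidef.of_dotProduct_mulVec_nonneg
  · rw [Matrix.IsHermitian, conjTranspose_eq_transpose_of_trivial]; exact hM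
  · intro x
    have hstar : star x = x := by ext i; simp
    rw [hstar]
    have h1 := hm'.dotProduct_mulVec_nonneg x
    rw [hstar, Matrix.sub_mulVec, dotProduct_sub, Matrix.smul_mulVec, Matrix.one_mulVec,
      dotProduct_smul, smul_eq_mul] at h1
    set η : ℝ := m / (Fintype.card N + 1) with hη
    have hη0 : 0 < η := by positivity
    have h2 : x ⬝ᵥ (M₀ *ᵥ x) - x ⬝ᵥ (M *ᵥ x) ≤ η * Fintype.card N * (x ⬝ᵥ x) := by
      have e1 : x ⬝ᵥ (M₀ *ᵥ x) - x ⬝ᵥ (M *ᵥ x) =
          ∑ i, ∑ j, (M₀ i j - M i j) * (x i * x j) := by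
        simp only [dotProduct, mulVec, Finset.mul_sum, ← Finset.sum_sub_distrib]
        refine Finset.sum_congr rfl fun i _ => Finset.sum_congr rfl fun j _ => ?_
        ring
      rw [e1]
      have e2 : ∀ i j, (M₀ i j - M i j) * (x i * x j) ≤ η * ((x i ^ 2 + x j ^ 2) / 2) := by
        intro i j
        have h3 := hclose i j
        rw [abs_sub_comm] at h3
        have h4 : |x i * x j| ≤ (x i ^ 2 + x j ^ 2) / 2 := by
          rw [abs_le]
          constructor <;> nlinarith [sq_nonneg (x i - x j), sq_nonneg (x i + x j)]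
        calc (M₀ i j - M i j) * (x i * x j) ≤ |(M₀ i j - M i j) * (x i * x j)| := le_abs_self _
          _ = |M₀ i j - M i j| * |x i * x j| := abs_mul _ _
          _ ≤ η * ((x i ^ 2 + x j ^ 2) / 2) :=
            mul_le_mul h3 h4 (abs_nonneg _) hη0.le
      calc ∑ i, ∑ j, (M₀ i j - M i j) * (x i * x j)
          ≤ ∑ i, ∑ j, η * ((x i ^ 2 + x j ^ 2) / 2) :=
            Finset.sum_le_sum fun i _ => Finset.sum_le_sum fun j _ => e2 i j
        _ = η * Fintype.card N * (x ⬝ᵥ x) := by
            have e3 : x ⬝ᵥ x = ∑ i, x i ^ 2 := by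
              simp only [dotProduct]
              refine Finset.sum_congr rfl fun i _ => ?_
              ring
            have e4 : ∀ i j, η * ((x i ^ 2 + x j ^ 2) / 2) = η / 2 * x i ^ 2 + η / 2 * x j ^ 2 := by
              intro i j; ring
            simp only [e4, Finset.sum_add_distrib, Finset.sum_const, Finset.card_univ,
              nsmul_eq_mul, ← Finset.mul_sum]
            rw [e3]
            ring
    have h5 : 0 ≤ x ⬝ᵥ x := by
      have := dotProduct_star_self_nonneg x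
      rwa [hstar] at this
    have h6 : η * Fintype.card N ≤ m := by
      rw [hη, div_mul_eq_mul_div, div_le_iff₀ (by positivity)]
      nlinarith
    nlinarith

theorem eventually_psd {α : Type*} {U : Filter α} {f : α → Matrix N N ℝ} {M : Matrix N N ℝ}
    (hM : M.PosDef) (hf : Tendsto f U (𝓝 M)) (h : ∀ᶠ a in U, (f a)ᵀ = f a) :
    ∀ᶠ a in U, (f a).PosSemidef := by
  obtain ⟨η, hη, hη'⟩ := psd_of_near hM
  have h1 : ∀ᶠ a in U, ∀ i j, |f a i j - M i j| ≤ η := by
    rw [eventually_all]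
    intro i
    rw [eventually_all]
    intro j
    have h2 : Tendsto (fun a => f a i j) U (𝓝 (M i j)) := by
      have hc : Continuous fun M : Matrix N N ℝ => M i j := continuous_id.matrix_elem i j
      exact (hc.tendsto M).comp hf
    have h3 := Metric.tendsto_nhds.1 h2 η hη
    filter_upwards [h3] with a ha
    exact (Real.dist_eq _ _ ▸ ha).le
  filter_upwards [h, h1] with a ha ha'
  exact hη' _ ha ha'

/-- a positive semidefinite matrix is bounded by its square -/
theorem entry_sq_le {R : Matrix N N ℝ} (hR : Rᵀ = R) (i j : N) : R i j ^ 2 ≤ (R * R) i i := by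
  rw [Matrix.mul_apply]
  have h1 : ∀ k, R i k * R k i = R i k ^ 2 := by
    intro k
    have : R k i = R i k := congrFun (congrFun hR i) k
    rw [this]; ring
  simp only [h1]
  exact Finset.single_le_sum (f := fun k => R i k ^ 2) (fun k _ => sq_nonneg _)
    (Finset.mem_univ j)

theorem abs_entry_le {R : Matrix N N ℝ} (hR : Rᵀ = R) {c : ℝ} (i j : N)
    (h : (R * R) i i ≤ c) : |R i j| ≤ c + 1 := by
  have h1 := entry_sq_le hR i j
  have h2 : |R i j| ^ 2 ≤ c := by rw [sq_abs]; linarith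
  nlinarith [abs_nonneg (R i j), sq_nonneg (|R i j| - 1)]

/-- convergence of the square roots -/
theorem conv_sqrt {α : Type*} (U : Ultrafilter α) {f g : α → Matrix N N ℝ} {c : ℝ}
    (hf : ∀ᶠ a in (U : Filter α), (f a)ᵀ = f a ∧ f a * f a = g a)
    (hg : ∀ᶠ a in (U : Filter α), ∀ i, g a i i ≤ c) :
    ∃ M : Matrix N N ℝ, Tendsto f U (𝓝 M) := by
  apply conv_of_bdd U f (c + 1)
  filter_upwards [hf, hg] with a ha ha' i j
  apply abs_entry_le ha.1 i j
  rw [ha.2]
  exact ha' i

/-- diagonal entries of convergent matrices are bounded -/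
theorem bdd_diag {α : Type*} {U : Filter α} {f : α → Matrix N N ℝ} {M : Matrix N N ℝ}
    (hf : Tendsto f U (𝓝 M)) : ∃ c : ℝ, ∀ᶠ a in U, ∀ i, f a i i ≤ c := by
  refine ⟨(∑ i, |M i i|) + 1, ?_⟩
  rw [eventually_all]
  intro i
  have h2 : Tendsto (fun a => f a i i) U (𝓝 (M i i)) := by
    have hc : Continuous fun M : Matrix N N ℝ => M i i := continuous_id.matrix_elem i i
    exact (hc.tendsto M).comp hf
  have h3 : M i i < (∑ i, |M i i|) + 1 := by
    have : |M i i| ≤ ∑ i, |M i i| :=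
      Finset.single_le_sum (f := fun i => |M i i|) (fun k _ => abs_nonneg _) (Finset.mem_univ i)
    have := le_abs_self (M i i)
    linarith
  filter_upwards [h2.eventually_lt_const h3] with a ha
  exact ha.le

theorem diag_le_of_psd {A B : Matrix N N ℝ} (h : (B - A).PosSemidef) (i : N) : A i i ≤ B i i := by
  have := h.diag_nonneg (i := i)
  rw [Matrix.sub_apply] at this
  linarith

theorem abs_entry_le_half {A : Matrix N N ℝ} (hA : A.PosSemidef) (i j : N) :
    |A i j| ≤ (A i i + A j j) / 2 := by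
  obtain ⟨R, hR, rfl⟩ := exists_sqrt hA
  have hs : ∀ k l, R k l = R l k := fun k l => congrFun (congrFun (psd_symm hR) l) k
  have e1 : (R * R) i j = ∑ k, R i k * R j k := by
    rw [Matrix.mul_apply]
    exact Finset.sum_congr rfl fun k _ => by rw [hs k j]
  have e2 : ∀ i, (R * R) i i = ∑ k, R i k ^ 2 := by
    intro i
    rw [Matrix.mul_apply]
    exact Finset.sum_congr rfl fun k _ => by rw [hs k i]; ring
  rw [e1, e2, e2, ← Finset.sum_add_distrib, Finset.sum_div]
  refine (Finset.abs_sum_le_sum_abs _ _).trans (Finset.sum_le_sum fun k _ => ?_)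
  rw [abs_le]
  constructor <;> nlinarith [sq_nonneg (R i k - R j k), sq_nonneg (R i k + R j k)]

/-- limits of pure matrices are pure -/
theorem pure_lim {α : Type*} {U : Filter α} [U.NeBot] {J : Matrix N N ℝ} (hJ : IsJ J)
    {f : α → Matrix N N ℝ} {M : Matrix N N ℝ}
    (hf : Tendsto f U (𝓝 M)) (h : ∀ᶠ a in U, Pure J (f a)) : Pure J M := by
  have h1 : M.PosSemidef := psd_lim hf (h.mono fun a ha => ha.1.posSemidef)
  have h2 : M * J * M = J := by
    have e1 : Tendsto (fun a => f a * J * f a) U (𝓝 (M * J * M)) :=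
      (hf.mul tendsto_const_nhds).mul hf
    have e2 : Tendsto (fun a => f a * J * f a) U (𝓝 J) := by
      apply tendsto_const_nhds.congr'
      filter_upwards [h] with a ha
      exact ha.2.symm
    exact tendsto_nhds_unique e1 e2
  refine ⟨?_, h2⟩
  rw [h1.posDef_iff_det_ne_zero]
  intro h0
  have := congrArg Matrix.det h2
  rw [det_mul, h0, mul_zero] at this
  have h3 := congrArg Matrix.det hJ.t_mul
  rw [det_mul, ← this, mul_zero, det_one] at h3
  exact zero_ne_one h3

/-! ### Lower semicontinuity -/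

theorem lsc {J γ₀ : Matrix N N ℝ} (hJ : IsJ J) (U : Ultrafilter (Matrix N N ℝ))
    (hU : (U : Filter (Matrix N N ℝ)) ≤ 𝓝 γ₀) (hC : ∀ᶠ γ in (U : Filter _), Cov J γ)
    {ε : ℝ} (hε : 0 < ε) : ∀ᶠ γ in (U : Filter _), GG J γ₀ ≤ GG J γ + ε := by
  have hid : Tendsto (fun γ : Matrix N N ℝ => γ) U (𝓝 γ₀) := hU
  have hex : ∀ γ : Matrix N N ℝ, ∃ A : Matrix N N ℝ, Cov J γ →
      (Pure J A ∧ (γ - A).PosSemidef ∧ L A / 2 < GG J γ + ε / 2) := by
    intro γ
    by_cases h : Cov J γ
    · obtain ⟨x, ⟨A, hA, hA', rfl⟩, hx⟩ := exists_lt_of_csInf_lt (h.nonempty_GG hJ)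
        (show sInf {x : ℝ | ∃ A, Pure J A ∧ (γ - A).PosSemidef ∧ x = L A / 2} <
          GG J γ + ε / 2 by
            have : GG J γ < GG J γ + ε / 2 := by linarith
            exact this)
      exact ⟨A, fun _ => ⟨hA, hA', hx⟩⟩
    · exact ⟨0, fun h' => absurd h' h⟩
  choose A hA using hex
  obtain ⟨c, hc⟩ := bdd_diag hid
  have hbdd : ∀ᶠ γ in (U : Filter (Matrix N N ℝ)), ∀ i j, |A γ i j| ≤ c := by
    filter_upwards [hc, hC] with γ h1 h2 i j
    obtain ⟨hp, hle, _⟩ := hA γ h2
    have h3 := abs_entry_le_half hp.1.posSemidef i j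
    have h4 := diag_le_of_psd hle i
    have h5 := diag_le_of_psd hle j
    have h6 := h1 i
    have h7 := h1 j
    linarith
  obtain ⟨A₀, hA₀⟩ := conv_of_bdd U A c hbdd
  have hA₀p : Pure J A₀ := pure_lim hJ hA₀ (hC.mono fun γ h => (hA γ h).1)
  have hA₀le : (γ₀ - A₀).PosSemidef :=
    psd_lim (hid.sub hA₀) (hC.mono fun γ h => (hA γ h).2.1)
  have hG₀ : GG J γ₀ ≤ L A₀ / 2 := csInf_le (bddBelow_GG _ _) ⟨A₀, hA₀p, hA₀le, rfl⟩
  -- `A₀ ≤ (1 + δ) A γ` eventually
  obtain ⟨δ, hδ, hδ'⟩ : ∃ δ : ℝ, 0 < δ ∧ (Fintype.card N) * δ ≤ ε := by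
    refine ⟨ε / (Fintype.card N + 1), by positivity, ?_⟩
    rw [← mul_div_assoc, div_le_iff₀ (by positivity)]
    nlinarith
  have hev : ∀ᶠ γ in (U : Filter (Matrix N N ℝ)), ((1 + δ) • A γ - A₀).PosSemidef := by
    have hPD : ((1 + δ) • A₀ - A₀).PosDef := by
      have : (1 + δ) • A₀ - A₀ = δ • A₀ := by rw [add_smul, one_smul, add_sub_cancel_left]
      rw [this]
      exact hA₀p.1.smul hδ
    apply eventually_psd hPD ((hA₀.const_smul _).sub_const _)
    filter_upwards [hC] with γ h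
    rw [transpose_sub, transpose_smul, pd_symm (hA γ h).1.1, pd_symm hA₀p.1]
  filter_upwards [hev, hC] with γ h1 h2
  obtain ⟨hp, hle, hlt⟩ := hA γ h2
  have h3 := L_mono_smul hA₀p.1 hp.1 (show 1 ≤ 1 + δ by linarith) h1
  have h4 : Real.log (1 + δ) ≤ δ := by
    have := Real.log_le_sub_one_of_pos (show 0 < 1 + δ by linarith)
    linarith
  have h5 : (Fintype.card N : ℝ) * Real.log (1 + δ) ≤ ε := by
    refine le_trans ?_ hδ'
    exact mul_le_mul_of_nonneg_left h4 (Nat.cast_nonneg _)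
  linarith

end Pool.Agent.X133.Sq
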