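import Mathlib

set_option autoImplicit false

open Matrix
open scoped ComplexOrder

namespace Pool.Agent.X133.Sq

/-- The canonical variables of `n` modes: `(i, 0)` stands for `Q_i` and `(i, 1)` for `P_i`. -/
abbrev Quad (n : ℕ) : Type := Fin n × Fin 2

/-- The symplectic form `σ_n`, the direct sum of `n` blocks `(0, 1; -1, 0)`. -/
def sigma (n : ℕ) : Matrix (Quad n) (Quad n) ℝ :=
  Matrix.of fun p q => if p.1 = q.1 then (!![0, 1; -1, 0] : Matrix (Fin 2) (Fin 2) ℝ) p.2 q.2 else 0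

/-- The real symplectic group `Sp(2n)`. -/
def IsSymplectic {n : ℕ} (S : Matrix (Quad n) (Quad n) ℝ) : Prop := Sᵀ * sigma n * S = sigma n

/-- Covariance matrices on `n` modes: `γ` is real symmetric and the Hermitian matrix `γ - iσ_n` is
positive semidefinite. -/
def IsCovariance {n : ℕ} (γ : Matrix (Quad n) (Quad n) ℝ) : Prop :=
  γ.IsSymm ∧
    (γ.map (fun x : ℝ => (x : ℂ)) - Complex.I • (sigma n).map (fun x : ℝ => (x : ℂ))).PosSemidef

/-- The sum of the logarithms of the `n` largest singular values of `S` (Mathlib's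
`LinearMap.singularValues` lists all singular values in decreasing order, starting at the
index `0`). -/
noncomputable def squeezing {n : ℕ} (S : Matrix (Quad n) (Quad n) ℝ) : ℝ :=
  ∑ i ∈ Finset.range n, Real.log ((Matrix.toEuclideanLin S).singularValues i)

/-- The set of the values `∑_{i ≤ n} log s_i(S)` for `S ∈ Sp(2n)` with `γ ≥ SᵀS`. -/
def costs {n : ℕ} (γ : Matrix (Quad n) (Quad n) ℝ) : Set ℝ :=
  {x | ∃ S : Matrix (Quad n) (Quad n) ℝ, IsSymplectic S ∧ (γ - Sᵀ * S).PosSemidef ∧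
    x = squeezing S}

/-- The squeezing measure `G(γ)`, the infimum of the set `costs γ`. -/
noncomputable def G {n : ℕ} (γ : Matrix (Quad n) (Quad n) ℝ) : ℝ := sInf (costs γ)

/-- The identification of the canonical variables of `n₁ + n₂` modes: the first `n₁` modes followed
by the last `n₂` modes. -/
def quadEquiv (n₁ n₂ : ℕ) : Quad n₁ ⊕ Quad n₂ ≃ Quad (n₁ + n₂) :=
  (Equiv.sumProdDistrib (Fin n₁) (Fin n₂) (Fin 2)).symm.trans
    (Equiv.prodCongr finSumFinEquiv (Equiv.refl (Fin 2)))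

/-- The direct sum `γ_A ⊕ γ_B`, the block diagonal matrix on `n₁ + n₂` modes. -/
def directSum {n₁ n₂ : ℕ} (γA : Matrix (Quad n₁) (Quad n₁) ℝ) (γB : Matrix (Quad n₂) (Quad n₂) ℝ) :
    Matrix (Quad (n₁ + n₂)) (Quad (n₁ + n₂)) ℝ :=
  Matrix.reindex (quadEquiv n₁ n₂) (quadEquiv n₁ n₂) (fromBlocks γA 0 0 γB)

end Pool.Agent.X133.Sq
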