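import Pool.Agent.X133.Sq.Basic

set_option autoImplicit false
set_option linter.unusedSectionVars false

open Matrix Finset
open scoped MatrixOrder

namespace Pool.Agent.X133.Sq

variable {N : Type*} [Fintype N] [DecidableEq N] {T : Type*} [Fintype T] [DecidableEq T]

/-- `J` is an orthogonal complex structure. -/
def IsJ (J : Matrix N N ℝ) : Prop := Jᵀ = -J ∧ J * J = -1

/-- positive definite symplectic matrices -/
def Pure (J A : Matrix N N ℝ) : Prop := A.PosDef ∧ A * J * A = J

theorem IsJ.mul_t {J : Matrix N N ℝ} (hJ : IsJ J) : J * Jᵀ = 1 := by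
  rw [hJ.1, Matrix.mul_neg, hJ.2, neg_neg]

theorem IsJ.t_mul {J : Matrix N N ℝ} (hJ : IsJ J) : Jᵀ * J = 1 := by
  rw [hJ.1, Matrix.neg_mul, hJ.2, neg_neg]

theorem Pure.inv_eq {J A : Matrix N N ℝ} (hJ : IsJ J) (hA : Pure J A) : A⁻¹ = Jᵀ * A * J := by
  apply Matrix.inv_eq_right_inv
  have h1 : A * (Jᵀ * A * J) = -((A * J * A) * J) := by
    rw [hJ.1]
    noncomm_ring
  rw [h1, hA.2, hJ.2, neg_neg]

theorem pure_of_inv {J A : Matrix N N ℝ} (hJ : IsJ J) (hA : A.PosDef)
    (h : A⁻¹ = Jᵀ * A * J) : Pure J A := by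
  refine ⟨hA, ?_⟩
  have h1 : A * A⁻¹ = 1 := Matrix.mul_nonsing_inv A (pd_unit hA)
  rw [h, hJ.1] at h1
  have h2 : A * J * A = (A * (-J * A * J)) * J := by
    have : (A * (-J * A * J)) * J = - (A * J * A * (J * J)) := by noncomm_ring
    rw [this, hJ.2]
    simp
  rw [h2, h1, Matrix.one_mul]

theorem pure_of_dual {J A : Matrix N N ℝ} (hJ : IsJ J) (hA : A.PosDef)
    (h : Jᵀ * A⁻¹ * J = A) : Pure J A := by
  apply pure_of_inv hJ hA
  have h1 : Jᵀ * A * J = Jᵀ * (Jᵀ * A⁻¹ * J) * J := by rw [h]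
  rw [h1, hJ.1]
  have : -J * (-J * A⁻¹ * J) * J = (J * J) * A⁻¹ * (J * J) := by noncomm_ring
  rw [this, hJ.2]
  simp

theorem Pure.dual {J A : Matrix N N ℝ} (hJ : IsJ J) (hA : Pure J A) : Jᵀ * A⁻¹ * J = A := by
  rw [hA.inv_eq hJ, hJ.1]
  have : -J * (-J * A * J) * J = (J * J) * A * (J * J) := by noncomm_ring
  rw [this, hJ.2]
  simp

theorem dual_pd {J A : Matrix N N ℝ} (hJ : IsJ J) (hA : A.PosDef) :
    (Jᵀ * A⁻¹ * J).PosDef := by
  apply pd_conj hA.inv
  have h := congrArg Matrix.det hJ.t_mul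
  rw [det_mul, det_one] at h
  exact IsUnit.of_mul_eq_one _ (by rw [mul_comm]; exact h)

/-- the dual of a geometric mean -/
theorem geo_dual {J A M B : Matrix N N ℝ} (hJ : IsJ J) (hA : A.PosDef)
    (h : M * A⁻¹ * M = B) :
    (Jᵀ * M⁻¹ * J) * (Jᵀ * A⁻¹ * J)⁻¹ * (Jᵀ * M⁻¹ * J) = Jᵀ * B⁻¹ * J := by
  have h1 : (Jᵀ * A⁻¹ * J)⁻¹ = Jᵀ * A * J := by
    apply Matrix.inv_eq_right_inv
    have : Jᵀ * A⁻¹ * J * (Jᵀ * A * J) = Jᵀ * A⁻¹ * (J * Jᵀ) * A * J := by
      simp only [Matrix.mul_assoc]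
    rw [this, hJ.mul_t, Matrix.mul_one, Matrix.mul_assoc Jᵀ, Matrix.nonsing_inv_mul _ (pd_unit hA),
      Matrix.mul_one, hJ.t_mul]
  have h2 : B⁻¹ = M⁻¹ * A * M⁻¹ := by
    rw [← h, Matrix.mul_inv_rev, Matrix.mul_inv_rev, Matrix.nonsing_inv_nonsing_inv _ (pd_unit hA)]
    simp only [Matrix.mul_assoc]
  rw [h1, h2]
  have : Jᵀ * M⁻¹ * J * (Jᵀ * A * J) * (Jᵀ * M⁻¹ * J) =
      Jᵀ * M⁻¹ * (J * Jᵀ) * A * (J * Jᵀ) * M⁻¹ * J := by
    simp only [Matrix.mul_assoc]
  rw [this, hJ.mul_t]
  simp only [Matrix.mul_one, Matrix.mul_assoc]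

/-- geometric means of pure matrices are pure -/
theorem geo_pure {J A M B : Matrix N N ℝ} (hJ : IsJ J) (hA : Pure J A) (hM : M.PosDef)
    (hB : Pure J B) (h : M * A⁻¹ * M = B) : Pure J M := by
  have h1 := geo_dual hJ hA.1 h
  rw [hA.dual hJ, hB.dual hJ] at h1
  exact pure_of_dual hJ hM (geo_unique hA.1 (dual_pd hJ hM).posSemidef hM.posSemidef
    (h1.trans h.symm))

theorem geo_symm {A M B : Matrix N N ℝ} (hA : A.PosDef) (hM : M.PosDef)
    (h : M * A⁻¹ * M = B) : M * B⁻¹ * M = A := by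
  have h2 : B⁻¹ = M⁻¹ * A * M⁻¹ := by
    rw [← h, Matrix.mul_inv_rev, Matrix.mul_inv_rev, Matrix.nonsing_inv_nonsing_inv _ (pd_unit hA)]
    simp only [Matrix.mul_assoc]
  rw [h2]
  have : M * (M⁻¹ * A * M⁻¹) * M = (M * M⁻¹) * A * (M⁻¹ * M) := by
    simp only [Matrix.mul_assoc]
  rw [this, Matrix.mul_nonsing_inv _ (pd_unit hM), Matrix.nonsing_inv_mul _ (pd_unit hM),
    Matrix.one_mul, Matrix.mul_one]

/-- the geometric mean of `γ` and its dual is pure -/
theorem geo_self_pure {J A M : Matrix N N ℝ} (hJ : IsJ J) (hA : A.PosDef) (hM : M.PosDef)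
    (h : M * A⁻¹ * M = Jᵀ * A⁻¹ * J) : Pure J M := by
  have h1 := geo_dual hJ hA h
  have h2 : Jᵀ * (Jᵀ * A⁻¹ * J)⁻¹ * J = A := by
    have h3 : (Jᵀ * A⁻¹ * J)⁻¹ = Jᵀ * A * J := by
      apply Matrix.inv_eq_right_inv
      have : Jᵀ * A⁻¹ * J * (Jᵀ * A * J) = Jᵀ * A⁻¹ * (J * Jᵀ) * A * J := by
        simp only [Matrix.mul_assoc]
      rw [this, hJ.mul_t, Matrix.mul_one, Matrix.mul_assoc Jᵀ,
        Matrix.nonsing_inv_mul _ (pd_unit hA), Matrix.mul_one, hJ.t_mul]
    rw [h3, hJ.1]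
    have : -J * (-J * A * J) * J = (J * J) * A * (J * J) := by noncomm_ring
    rw [this, hJ.2]
    simp
  rw [h2] at h1
  -- h1 : M' * (dual A)⁻¹ * M' = A, so M' * A⁻¹ * M' = dual A
  have h4 := geo_symm (dual_pd hJ hA) (dual_pd hJ hM) h1
  exact pure_of_dual hJ hM (geo_unique hA (dual_pd hJ hM).posSemidef hM.posSemidef
    (h4.trans h.symm))

/-- the square root of a pure matrix is pure -/
theorem sqrt_pure {J A R : Matrix N N ℝ} (hJ : IsJ J) (hA : Pure J A) (hR : R.PosDef)
    (h : R * R = A) : Pure J R := by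
  apply pure_of_dual hJ hR
  apply sqrt_unique (dual_pd hJ hR).posSemidef hR.posSemidef
  have : Jᵀ * R⁻¹ * J * (Jᵀ * R⁻¹ * J) = Jᵀ * R⁻¹ * (J * Jᵀ) * R⁻¹ * J := by
    simp only [Matrix.mul_assoc]
  rw [this, hJ.mul_t, Matrix.mul_one, Matrix.mul_assoc Jᵀ, ← Matrix.mul_inv_rev, h, hA.dual hJ]

/-- symplectic matrices -/
def Symp (J S : Matrix N N ℝ) : Prop := Sᵀ * J * S = J

theorem Symp.transpose {J S : Matrix N N ℝ} (hJ : IsJ J) (hS : Symp J S) : S * J * Sᵀ = J := by
  -- (-J Sᵀ J) S = 1, hence S (-J Sᵀ J) = 1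
  have h1 : (-(J * Sᵀ * J)) * S = 1 := by
    have : (-(J * Sᵀ * J)) * S = -(J * (Sᵀ * J * S)) := by noncomm_ring
    rw [this, hS, hJ.2, neg_neg]
  have h2 : S * (-(J * Sᵀ * J)) = 1 := mul_eq_one_comm.1 h1
  have h3 : S * J * Sᵀ = S * (-(J * Sᵀ * J)) * J := by
    have : S * (-(J * Sᵀ * J)) * J = -(S * J * Sᵀ * (J * J)) := by noncomm_ring
    rw [this, hJ.2]
    simp
  rw [h3, h2, Matrix.one_mul]

theorem Symp.det_unit {J S : Matrix N N ℝ} (hJ : IsJ J) (hS : Symp J S) : IsUnit S.det := by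
  have h1 : (-(J * Sᵀ * J)) * S = 1 := by
    have : (-(J * Sᵀ * J)) * S = -(J * (Sᵀ * J * S)) := by noncomm_ring
    rw [this, hS, hJ.2, neg_neg]
  have h := congrArg Matrix.det h1
  rw [det_mul, det_one] at h
  exact IsUnit.of_mul_eq_one _ (by rw [mul_comm]; exact h)

theorem Symp.pure {J S : Matrix N N ℝ} (hJ : IsJ J) (hS : Symp J S) : Pure J (Sᵀ * S) := by
  refine ⟨?_, ?_⟩
  · have := pd_conj (Matrix.PosDef.one (n := N) (R := ℝ)) (hS.det_unit hJ)
    rwa [Matrix.mul_one] at this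
  · have : Sᵀ * S * J * (Sᵀ * S) = Sᵀ * (S * J * Sᵀ) * S := by simp only [Matrix.mul_assoc]
    rw [this, hS.transpose hJ, hS]

theorem Pure.exists_symp {J A : Matrix N N ℝ} (hJ : IsJ J) (hA : Pure J A) :
    ∃ S, Symp J S ∧ Sᵀ * S = A := by
  obtain ⟨R, hR, hRR⟩ := exists_sqrt_pd hA.1
  have hp := sqrt_pure hJ hA hR hRR
  refine ⟨R, ?_, ?_⟩
  · unfold Symp
    rw [pd_symm hR, hp.2]
  · rw [pd_symm hR, hRR]

/-! ### Singular values -/

theorem half_sum {n : ℕ} (lam : Fin (2 * n) → ℝ) (hanti : Antitone lam) (hpos : ∀ i, 0 < lam i)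
    (hinv : Multiset.map (fun i => (lam i)⁻¹) Finset.univ.val =
      Multiset.map lam Finset.univ.val) :
    (∀ i : Fin (2 * n), (i : ℕ) < n → 1 ≤ lam i) ∧ (∀ i : Fin (2 * n), n ≤ (i : ℕ) → lam i ≤ 1) := by
  have hcard : (univ.filter fun i => 1 < lam i).card = (univ.filter fun i => lam i < 1).card := by
    have h := congrArg (fun s => (Multiset.map (fun x : ℝ => if x < 1 then (1 : ℕ) else 0) s).sum)
      hinv
    simp only [Multiset.map_map] at h
    have h1 : ∑ i, (if (lam i)⁻¹ < 1 then (1 : ℕ) else 0) = ∑ i, if lam i < 1 then (1 : ℕ) else 0 := h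
    rw [Finset.card_filter, Finset.card_filter, ← h1]
    refine Finset.sum_congr rfl fun i _ => ?_
    have : (lam i)⁻¹ < 1 ↔ 1 < lam i := inv_lt_one₀ (hpos i)
    simp only [this]
  constructor
  · intro i hi
    by_contra hcon
    push Not at hcon
    have h1 : (univ.filter fun j : Fin (2 * n) => i ≤ j).card ≤
        (univ.filter fun j => lam j < 1).card := by
      apply Finset.card_le_card
      intro j hj
      simp only [Finset.mem_filter, Finset.mem_univ, true_and] at hj ⊢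
      exact (hanti hj).trans_lt hcon
    have h2 : (univ.filter fun j => 1 < lam j).card ≤
        (univ.filter fun j : Fin (2 * n) => j < i).card := by
      apply Finset.card_le_card
      intro j hj
      simp only [Finset.mem_filter, Finset.mem_univ, true_and] at hj ⊢
      by_contra hij
      push Not at hij
      have := hanti hij
      linarith
    have h3 : (univ.filter fun j : Fin (2 * n) => i ≤ j).card = 2 * n - i := by
      have : (univ.filter fun j : Fin (2 * n) => i ≤ j) = Finset.Ici i := by ext; simp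
      rw [this, Fin.card_Ici]
    have h4 : (univ.filter fun j : Fin (2 * n) => j < i).card = i := by
      have : (univ.filter fun j : Fin (2 * n) => j < i) = Finset.Iio i := by ext; simp
      rw [this, Fin.card_Iio]
    omega
  · intro i hi
    by_contra hcon
    push Not at hcon
    have h1 : (univ.filter fun j : Fin (2 * n) => j ≤ i).card ≤
        (univ.filter fun j => 1 < lam j).card := by
      apply Finset.card_le_card
      intro j hj
      simp only [Finset.mem_filter, Finset.mem_univ, true_and] at hj ⊢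
      exact hcon.trans_le (hanti hj)
    have h2 : (univ.filter fun j => lam j < 1).card ≤
        (univ.filter fun j : Fin (2 * n) => i < j).card := by
      apply Finset.card_le_card
      intro j hj
      simp only [Finset.mem_filter, Finset.mem_univ, true_and] at hj ⊢
      by_contra hij
      push Not at hij
      have := hanti hij
      linarith
    have h3 : (univ.filter fun j : Fin (2 * n) => j ≤ i).card = i + 1 := by
      have : (univ.filter fun j : Fin (2 * n) => j ≤ i) = Finset.Iic i := by ext; simp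
      rw [this, Fin.card_Iic]
    have h4 : (univ.filter fun j : Fin (2 * n) => i < j).card = 2 * n - 1 - i := by
      have : (univ.filter fun j : Fin (2 * n) => i < j) = Finset.Ioi i := by ext; simp
      rw [this, Fin.card_Ioi]
    omega

theorem Pure.roots_inv {J A : Matrix N N ℝ} (hJ : IsJ J) (hA : Pure J A) :
    A.charpoly.roots.map (fun x => x⁻¹) = A.charpoly.roots := by
  have h1 : (A⁻¹).charpoly = A.charpoly := by
    rw [hA.inv_eq hJ, Matrix.mul_assoc, Matrix.charpoly_mul_comm, Matrix.mul_assoc, hJ.mul_t,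
      Matrix.mul_one]
  obtain ⟨V, hV1, hV2, hV3⟩ := spec hA.1.1
  set lam := hA.1.1.eigenvalues with hlam
  have hpos : ∀ i, 0 < lam i := fun i => hA.1.eigenvalues_pos i
  have h2 : A⁻¹ = V * diagonal (fun i => (lam i)⁻¹) * Vᵀ := by
    apply Matrix.inv_eq_right_inv
    conv_lhs => rw [hV3]
    have : V * diagonal lam * Vᵀ * (V * diagonal (fun i => (lam i)⁻¹) * Vᵀ) =
        V * (diagonal lam * (Vᵀ * V) * diagonal (fun i => (lam i)⁻¹)) * Vᵀ := by
      simp only [Matrix.mul_assoc]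
    rw [this, hV1, Matrix.mul_one, diagonal_mul_diagonal]
    have h3 : (fun i => lam i * (lam i)⁻¹) = fun _ => 1 := by
      funext i
      exact mul_inv_cancel₀ (hpos i).ne'
    rw [h3, diagonal_one, Matrix.mul_one, hV2]
  have h3 : (A⁻¹).charpoly = (diagonal fun i => (lam i)⁻¹).charpoly := by
    rw [h2, Matrix.charpoly_mul_comm, ← Matrix.mul_assoc, hV1, Matrix.one_mul]
  have h4 : (diagonal fun i => (lam i)⁻¹).charpoly.roots =
      Multiset.map (fun i => (lam i)⁻¹) Finset.univ.val := by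
    rw [Matrix.charpoly_diagonal, Polynomial.roots_prod]
    · simp
    · simp [Finset.prod_ne_zero_iff, Polynomial.X_sub_C_ne_zero]
  have h5 : A.charpoly.roots = Multiset.map lam Finset.univ.val :=
    hA.1.1.roots_charpoly_eq_eigenvalues
  rw [← h1, h3, h4, Multiset.map_map]
  rw [← h1, h3, h4] at h5
  rw [h5, ← Multiset.map_map, h5, Multiset.map_map]
  simpa using h5

/-- the sum of the logarithms of the `n` largest singular values of a symplectic matrix -/
theorem sum_log_singularValues {J S : Matrix N N ℝ} (hJ : IsJ J) (hS : Symp J S) {n : ℕ}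
    (hn : Fintype.card N = 2 * n) :
    ∑ i ∈ Finset.range n, Real.log ((Matrix.toEuclideanLin S).singularValues i) =
      L (Sᵀ * S) / 2 := by
  set A := Sᵀ * S with hAdef
  have hA : Pure J A := hS.pure hJ
  set Tm := Matrix.toEuclideanLin S with hTm
  have hfin : Module.finrank ℝ (EuclideanSpace ℝ N) = 2 * n := by
    rw [finrank_euclideanSpace, hn]
  set lam : Fin (2 * n) → ℝ := Tm.isSymmetric_adjoint_comp_self.eigenvalues hfin with hlam
  have hcomp : Tm.adjoint ∘ₗ Tm = Matrix.toEuclideanLin A := by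
    rw [hAdef, hTm, ← Matrix.toEuclideanLin_conjTranspose_eq_adjoint,
      conjTranspose_eq_transpose_of_trivial]
    ext x
    simp [Matrix.mulVec_mulVec]
  have hroots : A.charpoly.roots = Multiset.map lam Finset.univ.val := by
    have h1 := hA.1.1.roots_charpoly_eq_eigenvalues₀
    have h2 : ∀ (B : EuclideanSpace ℝ N →ₗ[ℝ] EuclideanSpace ℝ N) (hB : B.IsSymmetric)
        (m : ℕ) (hm : Module.finrank ℝ (EuclideanSpace ℝ N) = m)
        (hBA : B = Matrix.toEuclideanLin A),
        Multiset.map (hB.eigenvalues hm) Finset.univ.val =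
          Multiset.map (hA.1.1.eigenvalues₀) Finset.univ.val := by
      intro B hB m hm hBA
      subst hBA
      have : m = Fintype.card N := by rw [← hm, finrank_euclideanSpace]
      subst this
      rfl
    rw [h1, hlam, h2 _ _ _ _ hcomp]
    rfl
  have hpos : ∀ i, 0 < lam i := by
    intro i
    have h1 : lam i ∈ A.charpoly.roots := by
      rw [hroots]
      exact Multiset.mem_map_of_mem _ (Finset.mem_univ i)
    rw [hA.1.1.roots_charpoly_eq_eigenvalues] at h1
    obtain ⟨j, _, hj⟩ := Multiset.mem_map.1 h1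
    rw [← hj]
    exact hA.1.eigenvalues_pos j
  have hanti : Antitone lam := LinearMap.IsSymmetric.eigenvalues_antitone _ _
  have hinv : Multiset.map (fun i => (lam i)⁻¹) Finset.univ.val =
      Multiset.map lam Finset.univ.val := by
    have := hA.roots_inv hJ
    rw [hroots, Multiset.map_map] at this
    exact this
  obtain ⟨hup, hlow⟩ := half_sum lam hanti hpos hinv
  have hL : L A = ∑ i : Fin (2 * n), Real.posLog (lam i) := by
    unfold L
    rw [hroots, Multiset.map_map]
    rfl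
  have hsv : ∀ i : Fin (2 * n), Tm.singularValues i = √(lam i) := fun i =>
    Tm.singularValues_fin hfin i
  have h1 : L A = ∑ i ∈ Finset.range (2 * n), Real.posLog (Tm.singularValues i ^ 2) := by
    rw [hL, Finset.sum_range]
    refine Finset.sum_congr rfl fun i _ => ?_
    rw [hsv, Real.sq_sqrt (hpos i).le]
  rw [h1, two_mul, Finset.sum_range_add]
  have h2 : ∑ i ∈ Finset.range n, Real.posLog (Tm.singularValues (n + i) ^ 2) = 0 := by
    refine Finset.sum_eq_zero fun i hi => ?_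
    rw [Finset.mem_range] at hi
    have h3 := hsv ⟨n + i, by omega⟩
    simp only at h3
    rw [h3, Real.sq_sqrt (hpos _).le, Real.posLog_eq_zero_iff, abs_of_pos (hpos _)]
    exact hlow _ (by simp)
  rw [h2, add_zero, Finset.sum_div]
  refine Finset.sum_congr rfl fun i hi => ?_
  rw [Finset.mem_range] at hi
  have h3 := hsv ⟨i, by omega⟩
  simp only at h3
  rw [h3, Real.sq_sqrt (hpos _).le, Real.posLog_eq_log_max_one (hpos _).le,
    max_eq_right (hup _ hi), Real.log_sqrt (hpos _).le]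

end Pool.Agent.X133.Sq
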